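import Pool.Agent.Run7.h940.PACH.DU1
import Pool.Agent.Helper82.BorsukUlam

set_option autoImplicit false

namespace Run7.h940.PACH.DU
open Finset Module Filter Topology
open scoped RealInnerProductSpace

/-- the regularised normal operator -/
noncomputable def Mop {d : ℕ} (a b : Fin (d + 1) → V d × ℝ) (ε : ℝ) (x : Fin (d + 1) → ℝ) :
    V d →L[ℝ] V d :=
  ∑ i, |x i| • (op (a i).1 + op (b i).1) + ε • ContinuousLinearMap.id ℝ (V d)

noncomputable def bvec {d : ℕ} (a b : Fin (d + 1) → V d × ℝ) (x : Fin (d + 1) → ℝ) : V d :=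
  ∑ i, |x i| • ((a i).2 • (a i).1 + (b i).2 • (b i).1)

theorem Mop_cont {d : ℕ} (a b : Fin (d + 1) → V d × ℝ) (ε : ℝ) : Continuous (Mop a b ε) := by
  unfold Mop
  refine Continuous.add (continuous_finsetSum _ fun i _ => ?_) continuous_const
  exact (continuous_apply i).abs.smul continuous_const

theorem bvec_cont {d : ℕ} (a b : Fin (d + 1) → V d × ℝ) : Continuous (bvec a b) := by
  unfold bvec
  refine continuous_finsetSum _ fun i _ => ?_
  exact (continuous_apply i).abs.smul continuous_const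

theorem Mop_apply {d : ℕ} (a b : Fin (d + 1) → V d × ℝ) (ε : ℝ) (x : Fin (d + 1) → ℝ) (v : V d) :
    Mop a b ε x v = ∑ i, |x i| • ((⟪(a i).1, v⟫ : ℝ) • (a i).1 + (⟪(b i).1, v⟫ : ℝ) • (b i).1) +
      ε • v := by
  simp [Mop, op_apply, _root_.sum_apply]

theorem Mop_unit {d : ℕ} (a b : Fin (d + 1) → V d × ℝ) {ε : ℝ} (hε : 0 < ε)
    (x : Fin (d + 1) → ℝ) : IsUnit (Mop a b ε x) := by
  rw [ContinuousLinearMap.isUnit_iff_bijective]
  have hinj : Function.Injective (Mop a b ε x) := by
    rw [injective_iff_map_eq_zero]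
    intro v hv
    have h1 : (⟪Mop a b ε x v, v⟫ : ℝ) = 0 := by rw [hv, inner_zero_left]
    rw [Mop_apply, inner_add_left, sum_inner, inner_smul_left, real_inner_self_eq_norm_sq] at h1
    have h2 : 0 ≤ ∑ i, (⟪|x i| • ((⟪(a i).1, v⟫ : ℝ) • (a i).1 + (⟪(b i).1, v⟫ : ℝ) • (b i).1), v⟫ : ℝ) := by
      refine Finset.sum_nonneg fun i _ => ?_
      rw [inner_smul_left, inner_add_left, inner_smul_left, inner_smul_left]
      simp only [conj_trivial]
      have h3 := mul_self_nonneg (⟪(a i).1, v⟫ : ℝ)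
      have h4 := mul_self_nonneg (⟪(b i).1, v⟫ : ℝ)
      have h5 := abs_nonneg (x i)
      positivity
    simp only [conj_trivial] at h1
    have h6 : ‖v‖ ^ 2 = 0 := by
      have h7 := sq_nonneg ‖v‖
      nlinarith
    exact norm_eq_zero.1 (pow_eq_zero_iff (two_ne_zero) |>.1 h6)
  exact ⟨hinj, LinearMap.injective_iff_surjective (f := (Mop a b ε x).toLinearMap) |>.1 hinj⟩

noncomputable def qf {d : ℕ} (a b : Fin (d + 1) → V d × ℝ) (ε : ℝ) (x : Fin (d + 1) → ℝ) : V d :=
  Ring.inverse (Mop a b ε x) (bvec a b x)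

theorem qf_cont {d : ℕ} (a b : Fin (d + 1) → V d × ℝ) {ε : ℝ} (hε : 0 < ε) :
    Continuous (qf a b ε) := by
  unfold qf
  refine Continuous.clm_apply ?_ (bvec_cont a b)
  rw [continuous_iff_continuousAt]
  intro x
  obtain ⟨u, hu⟩ := Mop_unit a b hε x
  have h1 : ContinuousAt Ring.inverse (Mop a b ε x) := by
    rw [← hu]; exact NormedRing.inverse_continuousAt u
  exact h1.comp (Mop_cont a b ε).continuousAt

theorem qf_eq {d : ℕ} (a b : Fin (d + 1) → V d × ℝ) {ε : ℝ} (hε : 0 < ε) (x : Fin (d + 1) → ℝ) :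
    ∑ i, |x i| • (vf (a i) (qf a b ε x) + vf (b i) (qf a b ε x)) = ε • qf a b ε x := by
  have h1 : Mop a b ε x (qf a b ε x) = bvec a b x := by
    unfold qf
    have h2 := Ring.mul_inverse_cancel _ (Mop_unit a b hε x)
    have h3 := congrArg (fun L : V d →L[ℝ] V d => L (bvec a b x)) h2
    simpa using h3
  rw [Mop_apply] at h1
  have h4 : ∑ i, |x i| • (vf (a i) (qf a b ε x) + vf (b i) (qf a b ε x)) =
      bvec a b x - ∑ i, |x i| • ((⟪(a i).1, qf a b ε x⟫ : ℝ) • (a i).1 +
        (⟪(b i).1, qf a b ε x⟫ : ℝ) • (b i).1) := by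
    unfold bvec
    rw [← Finset.sum_sub_distrib]
    refine Finset.sum_congr rfl fun i _ => ?_
    rw [← smul_sub]
    congr 1
    simp only [vf, sub_smul]
    abel
  rw [h4, ← h1]
  abel

/-- Colourful Radon theorem for the regression depth of hyperplanes. -/
theorem radonH (d : ℕ) (a b : Fin (d + 1) → V d × ℝ) : ∃ (q : V d) (s : Fin (d + 1) → Bool),
    (0 : V d) ∈ convexHull ℝ (Set.range fun i => vf (if s i then a i else b i) q) ∧
    (0 : V d) ∈ convexHull ℝ (Set.range fun i => vf (if s i then b i else a i) q) := by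
  classical
  let S : Finset (V d × ℝ) := univ.image a ∪ univ.image b
  obtain ⟨R, hR0, hR⟩ := zero_bound S
  -- regularised solutions
  have hreg : ∀ ε : ℝ, 0 < ε → ∃ p : (Fin (d + 1) → ℝ) × V d,
      p.1 ∈ Pool.Agent.Helper82.BorsukUlam.K d ∧ ‖p.2‖ ≤ R ∧
      ∑ i, p.1 i • (vf (a i) p.2 - vf (b i) p.2) = 0 ∧
      ∑ i, |p.1 i| • (vf (a i) p.2 + vf (b i) p.2) = ε • p.2 := by
    intro ε hε
    let F : (Fin (d + 1) → ℝ) → V d := fun x =>
      ∑ i, x i • (vf (a i) (qf a b ε x) - vf (b i) (qf a b ε x))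
    have hvc : ∀ h : V d × ℝ, Continuous (vf h) := by
      intro h; unfold vf; fun_prop
    have hFc : Continuous F := by
      refine continuous_finsetSum _ fun i _ => ?_
      exact (continuous_apply i).smul (((hvc _).comp (qf_cont a b hε)).sub
        ((hvc _).comp (qf_cont a b hε)))
    have hodd : ∀ x, F (-x) = - F x := by
      intro x
      have h1 : qf a b ε (-x) = qf a b ε x := by
        unfold qf Mop bvec
        simp [abs_neg]
      simp only [F, h1, Pi.neg_apply, neg_smul, Finset.sum_neg_distrib]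
    obtain ⟨x, hx, hx0⟩ := Pool.Agent.Helper82.BorsukUlam.borsuk_ulam d (fun x k => F x k)
      (continuous_pi fun k => (continuous_apply k).comp
        ((PiLp.continuous_ofLp 2 _).comp hFc))
      (fun x => by funext k; simp [hodd])
    have hF0 : F x = 0 := by
      ext k
      simpa using congrFun hx0 k
    refine ⟨(x, qf a b ε x), hx, ?_, hF0, qf_eq a b hε x⟩
    refine hR (Fin (d + 1) ⊕ Fin (d + 1)) (Sum.elim a b) (Sum.elim (fun i => |x i|) (fun i => |x i|))
      ε _ ?_ ?_ hε ?_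
    · rintro (i | i)
      · exact mem_union_left _ (mem_image_of_mem _ (mem_univ i))
      · exact mem_union_right _ (mem_image_of_mem _ (mem_univ i))
    · rintro (i | i) <;> simp
    · rw [Fintype.sum_sum_type]
      simp only [Sum.elim_inl, Sum.elim_inr]
      rw [← Finset.sum_add_distrib, ← qf_eq a b hε x]
      refine Finset.sum_congr rfl fun i _ => ?_
      rw [smul_add]
  choose! p hp using hreg
  have hpos : ∀ k : ℕ, (0 : ℝ) < 1 / (k + 1 : ℝ) := fun k => by positivity
  have hcomp : IsCompact ((Pool.Agent.Helper82.BorsukUlam.K d) ×ˢ Metric.closedBall (0 : V d) R) :=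
    (Pool.Agent.Helper82.BorsukUlam.K_compact d).prod (isCompact_closedBall _ _)
  obtain ⟨⟨x, q⟩, ⟨hxK, hqR⟩, φ, hφ, hlim⟩ := hcomp.tendsto_subseq
    (x := fun k : ℕ => p (1 / (k + 1 : ℝ))) (fun k =>
      ⟨(hp _ (hpos k)).1, mem_closedBall_zero_iff.2 (hp _ (hpos k)).2.1⟩)
  have hvc : ∀ h : V d × ℝ, Continuous (vf h) := by
    intro h; unfold vf; fun_prop
  have hc1 : Continuous fun z : (Fin (d + 1) → ℝ) × V d =>
      ∑ i, z.1 i • (vf (a i) z.2 - vf (b i) z.2) := by
    refine continuous_finsetSum _ fun i _ => ?_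
    exact ((continuous_apply i).comp continuous_fst).smul
      (((hvc _).comp continuous_snd).sub ((hvc _).comp continuous_snd))
  have hc2 : Continuous fun z : (Fin (d + 1) → ℝ) × V d =>
      ∑ i, |z.1 i| • (vf (a i) z.2 + vf (b i) z.2) := by
    refine continuous_finsetSum _ fun i _ => ?_
    exact ((continuous_apply i).comp continuous_fst).abs.smul
      (((hvc _).comp continuous_snd).add ((hvc _).comp continuous_snd))
  have e1 : ∑ i, x i • (vf (a i) q - vf (b i) q) = 0 := by
    have h1 := (hc1.tendsto (x, q)).comp hlim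
    have h2 : ∀ k, ((fun z : (Fin (d + 1) → ℝ) × V d => ∑ i, z.1 i • (vf (a i) z.2 - vf (b i) z.2)) ∘
        ((fun k : ℕ => p (1 / (k + 1 : ℝ))) ∘ φ)) k = 0 := fun k => (hp _ (hpos (φ k))).2.2.1
    have h3 := (tendsto_congr h2).1 h1
    exact (tendsto_nhds_unique tendsto_const_nhds h3).symm
  have e2 : ∑ i, |x i| • (vf (a i) q + vf (b i) q) = 0 := by
    have h1 := (hc2.tendsto (x, q)).comp hlim
    have h2 : ∀ k, ((fun z : (Fin (d + 1) → ℝ) × V d => ∑ i, |z.1 i| • (vf (a i) z.2 + vf (b i) z.2)) ∘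
        ((fun k : ℕ => p (1 / (k + 1 : ℝ))) ∘ φ)) k =
        (1 / ((φ k : ℕ) + 1 : ℝ)) • (p (1 / ((φ k : ℕ) + 1 : ℝ))).2 :=
      fun k => (hp _ (hpos (φ k))).2.2.2
    have h3 := (tendsto_congr h2).1 h1
    have h4 : Tendsto (fun k => (1 / ((φ k : ℕ) + 1 : ℝ)) • (p (1 / ((φ k : ℕ) + 1 : ℝ))).2) atTop
        (𝓝 ((0 : ℝ) • q)) := by
      refine Tendsto.smul ?_ ((continuous_snd.tendsto (x, q)).comp hlim)
      exact tendsto_one_div_add_atTop_nhds_zero_nat.comp hφ.tendsto_atTop
    rw [zero_smul] at h4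
    exact tendsto_nhds_unique h3 h4
  have hx1 : ∑ i, |x i| = 1 := hxK
  refine ⟨q, fun i => decide (0 ≤ x i), ?_, ?_⟩
  · refine (mem_hull _ _).2 ⟨fun i => |x i|, fun i => abs_nonneg _, hx1, ?_⟩
    have h1 : ∀ i, |x i| • vf (if decide (0 ≤ x i) = true then a i else b i) q =
        (1 / 2 : ℝ) • (x i • (vf (a i) q - vf (b i) q) + |x i| • (vf (a i) q + vf (b i) q)) := by
      intro i
      by_cases h : 0 ≤ x i
      · simp only [h, decide_true, if_true, abs_of_nonneg h]
        module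
      · have h' : x i < 0 := lt_of_not_ge h
        simp only [h, decide_false, abs_of_neg h']
        simp only [Bool.false_eq_true, if_false]
        module
    simp only [h1, ← Finset.smul_sum, Finset.sum_add_distrib, e1, e2, add_zero, smul_zero]
  · refine (mem_hull _ _).2 ⟨fun i => |x i|, fun i => abs_nonneg _, hx1, ?_⟩
    have h1 : ∀ i, |x i| • vf (if decide (0 ≤ x i) = true then b i else a i) q =
        (1 / 2 : ℝ) • (|x i| • (vf (a i) q + vf (b i) q) - x i • (vf (a i) q - vf (b i) q)) := by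
      intro i
      by_cases h : 0 ≤ x i
      · simp only [h, decide_true, if_true, abs_of_nonneg h]
        module
      · have h' : x i < 0 := lt_of_not_ge h
        simp only [h, decide_false, abs_of_neg h']
        simp only [Bool.false_eq_true, if_false]
        module
    simp only [h1, ← Finset.smul_sum, Finset.sum_sub_distrib, e1, e2, sub_zero, smul_zero]

end Run7.h940.PACH.DU
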