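import Mathlib

/-!
# PACH: homogeneous selection (Pach's theorem) for colour classes of arbitrary sizes

Everything below is a statement (`S_XXX : Prop`) with a complete proof in its docstring.
Final goal: `S_MAIN`, the positive answer to Q1 of MP_c3eb34_co.

Plan: `S_SEL` (coloured first selection, from Brouwer's fixed point theorem), then from the point
`p = 0` and the dense set of rainbow simplices containing it: `S_CLS` (reduction to a subspace in
which `0` is in the interior), `S_REG` (every large sub-box contains a good tuple), `S_SEP`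
(separation, from Borsuk-Ulam, induction on the dimension) and `S_REP` (exchange of one vertex).
-/

set_option autoImplicit false

namespace Run7.h940.PACH

open Finset Module

/-! ## Part 1: coloured first selection -/

/-- Averaging. Proof: `∑ a ∈ C j, ∑ y ∈ piFinset C, f (update y j a) = |C j| * ∑ y ∈ piFinset C, f y`
(the map `(a, y) ↦ (y j, update y j a)` is an involution of `C j × piFinset C`), so some `a` is at
most the average. -/
def S_AVG : Prop := ∀ (ι α : Type) [Fintype ι] [DecidableEq ι] (C : ι → Finset α) (j : ι)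
  (f : (ι → α) → ℝ), (∀ i, (C i).Nonempty) →
    ∃ a ∈ C j, ∑ y ∈ Fintype.piFinset C, f (Function.update y j a) ≤ ∑ y ∈ Fintype.piFinset C, f y

/-- The number of odd coordinates (the dimension of the cube with centre `z`). -/
def rk {d : ℕ} (z : Fin d → ℤ) : ℕ := (univ.filter fun i => Odd (z i)).card

/-- `z'` is the centre of a face of the cube with centre `z`. -/
def Face {d : ℕ} (z' z : Fin d → ℤ) : Prop := ∀ i, z' i = z i ∨ (Odd (z i) ∧ |z' i - z i| = 1)

/-- A full flag of cubes: vertex, edge, …, `d`-cube. -/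
def IsFlag {d : ℕ} (w : Fin (d + 1) → (Fin d → ℤ)) : Prop :=
  (∀ j, rk (w j) = (j : ℕ)) ∧ ∀ j : Fin d, Face (w j.castSucc) (w j.succ)

/-- Choice of the points. `Bad v` is a set of rainbow tuples of small density for every `v`; there is
`x` such that no flag gives a bad tuple for its vertex `w 0`.

Proof. Write `E f = ∑ y ∈ piFinset C, f y`, `N = |piFinset C|`. Recursively (for `j = 0, …, d`)
construct `x_j : (Fin d → ℤ) → α` and `L_j : (Fin d → ℤ) → (tuples → ℝ)`, `L_j ≥ 0`.
`j = 0`: by `S_AVG` choose `x_0 v ∈ C 0` with `E (L_0 v) ≤ E (1_{Bad v})`, where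
`L_0 v y = 1_{Bad v} (update y 0 (x_0 v))`.
`j → j + 1`: put `M z y = ∑_{i : z i odd} (L_j (z + e_i) y + L_j (z - e_i) y)`, choose by `S_AVG`
`x_{j+1} z ∈ C (j + 1)` with `E (L_{j+1} z) ≤ E (M z)`, `L_{j+1} z y = M z (update y (j+1) (x_{j+1} z))`.
Then for `z` of rank `j`: `E (L_j z) < N / (2^d d!) * 2^j j!` (the `2 (j+1)` facets of a `z` of rank
`j+1` have rank `j`; for `j = 0` this is `hB`), so `E (L_d z) < N` for `rk z = d`.
Finally `x z = x_{rk z} z`. For a flag `w` show by induction on `j`: for all `y`,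
`1_{Bad (w 0)} (y changed to x_i (w i) at the places i ≤ j) ≤ L_j (w j) y` (the face `w j` of
`w (j+1)` with `rk` one less is `w (j+1) ± e_i` for an `i` with `w (j+1) i` odd; the `x_{j+1}` update
commutes). For `j = d` the left side does not depend on `y`, so if the tuple were bad then
`N ≤ E (L_d (w d)) < N`. -/
def S_FLAG : Prop := ∀ (d : ℕ) (α : Type) (C : Fin (d + 1) → Finset α)
  (Bad : (Fin d → ℤ) → Set (Fin (d + 1) → α)), (∀ i, (C i).Nonempty) →
    (∀ v, 2 ^ d * d.factorial * ({y ∈ (Fintype.piFinset C : Set (Fin (d + 1) → α)) | y ∈ Bad v}).ncard <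
      (Fintype.piFinset C).card) →
    ∃ x : (Fin d → ℤ) → α, (∀ z (i : Fin (d + 1)), rk z = (i : ℕ) → x z ∈ C i) ∧
      ∀ w, IsFlag w → (fun j => x (w j)) ∉ Bad (w 0)

/-- Continuous weights on the lattice points: positive iff `|p i - z i| < 1` for all `i` and
`|p i - z i| + |p i' - z i'| < 1` for all `i, i'` with `z i` odd and `z i'` even. -/
noncomputable def phi {d : ℕ} (z : Fin d → ℤ) (p : Fin d → ℝ) : ℝ :=
  (∏ i, max 0 (1 - |p i - z i|)) *
    ∏ i ∈ univ.filter (fun i => Odd (z i)), ∏ i' ∈ univ.filter (fun i' => ¬ Odd (z i')),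
      max 0 (1 - |p i - z i| - |p i' - z i'|)

/-- Proof. Let `s i ∈ [0,1]` be the distance of `p i` to the nearest even integer, `ev i` this even
integer (`ev i = 2 * round (p i / 2)`), `od i` the odd integer `ev i + 1` if `ev i ≤ p i`, else
`ev i - 1`; so `|p i - ev i| = s i`, `|p i - od i| = 1 - s i`. If `phi z p > 0` then for odd `z i` it is the
unique odd integer at distance `< 1` from `p i`, so `z i = od i`, `|p i - z i| = 1 - s i`, and for
even `z i` it is the unique even integer at distance `< 1`, `z i = ev i`, `|p i - z i| = s i`; and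
`s i' < s i` whenever `z i` is odd and `z i'` even. Existence: take `t ∈ (0,1)` different from all
`s i`, `z i = od i` iff `s i > t`, else `z i = ev i`. The flag: let `σ` sort the coordinates,
`s (σ 0) ≥ s (σ 1) ≥ …` (`Tuple.sort`), `w j i = od i` if `(σ⁻¹ i : ℕ) < j`, else `ev i`. If
`phi z p > 0` then the odd coordinates of `z` are an initial segment in this order, `z = w (rk z)`. -/
def S_GM1 : Prop := ∀ (d : ℕ) (p : Fin d → ℝ), (∃ z : Fin d → ℤ, 0 < phi z p) ∧
  ∃ w, IsFlag w ∧ (∀ i, |(w 0 i : ℝ) - p i| ≤ 1) ∧ ∀ z : Fin d → ℤ, 0 < phi z p → ∃ j, z = w j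

/-- The piecewise continuous map. Proof from `S_GM1`:
`G p = (∑ᶠ z, phi z p)⁻¹ • ∑ᶠ z, phi z p • X z`; the sums are locally finite (`phi z p ≠ 0` implies
`|p i - z i| < 1` for all `i`), so `G` is continuous (`continuous_finsum`); all `z` with
`phi z p > 0` are of the form `w j` with the flag of `S_GM1`, so `G p` is in the convex hull
(`Finset.centerMass_mem_convexHull`). -/
def S_GMAP : Prop := ∀ (d : ℕ) (E : Type) [NormedAddCommGroup E] [NormedSpace ℝ E]
  (X : (Fin d → ℤ) → E), ∃ G : (Fin d → ℝ) → E, Continuous G ∧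
    ∀ p, ∃ w, IsFlag w ∧ (∀ i, |(w 0 i : ℝ) - p i| ≤ 1) ∧
      G p ∈ convexHull ℝ (Set.range fun j => X (w j))

/-- Compactness. Proof by contradiction: for every `n` there is `p n` at distance `≤ 1/(n+1)` of at
least `N ≥ 1` of the sets (`N = 0` is excluded by the hypothesis); by pigeonhole the same subset `S`
of `T` for infinitely many `n`; the `p n` are bounded, take a convergent subsequence; the limit is in
all `K a`, `a ∈ S` (`infDist` is continuous, `K a` closed). -/
def S_ETA : Prop := ∀ (d : ℕ) (A : Type) (T : Finset A) (K : A → Set (EuclideanSpace ℝ (Fin d)))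
  (N : ℕ), (∀ a ∈ T, IsCompact (K a) ∧ (K a).Nonempty) →
    (∀ p, ({a ∈ (T : Set A) | p ∈ K a}).ncard < N) →
    ∃ η : ℝ, 0 < η ∧ ∀ p, ({a ∈ (T : Set A) | Metric.infDist p (K a) ≤ η}).ncard < N

/-- Coloured first selection, with `c = 1 / (2^d d!)`. Proof from `S_FLAG`, `S_GMAP`, `S_ETA` and
Brouwer's theorem `Pool.Agent.H15.Brouwer.fixed_of_bounded` (a bounded continuous self-map of a
Euclidean space has a fixed point; file `Pool/Agent/H15/Brouwer.lean` of the graded tree).
Suppose that for every `p` the number of `x ∈ piFinset C` with `p ∈ conv (range x)` is `< c * N`,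
`N = |piFinset C|`. By `S_ETA` (with `N := ⌈c N⌉₊`) there is `η > 0` such that for every `p` fewer
than `c N` of the tuples have `infDist p (conv (range x)) ≤ η`. Let `h > 0` with `h * sqrt d < η`
(or `h * d < η`). Apply `S_FLAG` with `Bad v = {x | infDist (h • v) (conv (range x)) ≤ η}` and
`S_GMAP` with `X = x`, `G`. The map `T p = G (h⁻¹ • p)` is continuous and bounded (values in the
convex hull of the finite set `⋃ C i`; note `rk (w j) = j` gives `x (w j) ∈ C j`), so `T p = p` for
some `p`; with its flag `w`: `p ∈ conv (range (x ∘ w))` and `dist (h • w 0) p ≤ h sqrt d ≤ η`, so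
`x ∘ w ∈ Bad (w 0)`, a contradiction. -/
def S_SEL : Prop := ∀ d : ℕ, ∃ c : ℝ, 0 < c ∧
  ∀ C : Fin (d + 1) → Finset (EuclideanSpace ℝ (Fin d)), (∀ i, (C i).Nonempty) →
    ∃ p : EuclideanSpace ℝ (Fin d), c * ∏ i, ((C i).card : ℝ) ≤
      (({x ∈ (Fintype.piFinset C : Set (Fin (d + 1) → EuclideanSpace ℝ (Fin d))) |
        p ∈ convexHull ℝ (Set.range x)}).ncard : ℝ)

/-! ## Part 2: combinatorics of dense sets of tuples -/

/-- Every large sub-box contains a tuple of `G`. Proof. Let `0 < β < 1` with `2^{β k} < 1 + γ^k`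
(w.l.o.g. `γ ≤ 1`; if `γ > 1` use `γ = 1`). Among all boxes `D` of nonempty `D i ⊆ C i` choose one which maximises
`Φ(D) = |G ∩ ∏ D i| / ∏ |D i|^{1-β}`. From `Φ(D) ≥ Φ(C)` and `|G ∩ ∏ D| ≤ ∏ |D i|`:
`∏ (|D i|/|C i|)^β ≥ α`, so `|D i| ≥ α^{1/β} |C i|` for every `i`. If `E i ⊆ D i`,
`|E i| ≥ γ |D i|` and `G ∩ ∏ E i = ∅`, split every `D i` into `E i` and `D i \ E i`; every box `F` of
the `2^k` boxes has `|G ∩ F| ≤ Φ(D) ∏ |F i|^{1-β}` (also if some `F i = ∅`), and the box `E`
contributes `0`, so with `e i = |E i|/|D i|`: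
`1 ≤ ∏ (e i^{1-β} + (1 - e i)^{1-β}) - ∏ e i^{1-β} ≤ 2^{β k} - γ^k`, a contradiction. -/
def S_REG : Prop := ∀ (k : ℕ) (α γ : ℝ), 0 < α → 0 < γ → ∃ c : ℝ, 0 < c ∧
  ∀ (ι A : Type) [Fintype ι] [DecidableEq ι], Fintype.card ι = k →
    ∀ (C : ι → Finset A) (G : Finset (ι → A)), (∀ i, (C i).Nonempty) →
      G ⊆ Fintype.piFinset C → α * ∏ i, ((C i).card : ℝ) ≤ G.card →
      ∃ D : ι → Finset A,
        (∀ i, D i ⊆ C i ∧ (D i).Nonempty ∧ c * ((C i).card : ℝ) ≤ ((D i).card : ℝ)) ∧
        ∀ E : ι → Finset A, (∀ i, E i ⊆ D i) → (∀ i, γ * ((D i).card : ℝ) ≤ ((E i).card : ℝ)) →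
          ∃ x ∈ G, ∀ i, x i ∈ E i

/-- A function `W` on a dense set `G` of tuples which does not change when one coordinate changes
inside `G` has a large level set. Proof by induction on `k` (for `ι = Fin k`, then transfer along
`Fintype.equivFin`; or directly): let `a` run over the last coordinate and `y` over the others. Let
`G' = {(y,a) ∈ G : #{a' : (y,a') ∈ G} ≥ (α/2) |C_last|}`, so `|G'| ≥ (α/2) ∏ |C i|`; choose `a` with
`|G'_a| ≥ (α/2) ∏_{others} |C i|` and apply the induction hypothesis with `α/2` to `G'_a` and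
`y ↦ W (y, a)`: there is `w` with `#{y ∈ G'_a : W (y,a) = w} ≥ φ_{k-1}(α/2) ∏_{others}`. For each
such `y` all `a'` with `(y,a') ∈ G` (at least `(α/2)|C_last|` many) have `W (y,a') = w`. So
`φ_k(α) = (α/2) φ_{k-1}(α/2)`. -/
def S_CLS : Prop := ∀ (k : ℕ) (α : ℝ), 0 < α → ∃ φ : ℝ, 0 < φ ∧
  ∀ (ι A B : Type) [Fintype ι] [DecidableEq ι], Fintype.card ι = k →
    ∀ (C : ι → Finset A) (G : Finset (ι → A)) (W : (ι → A) → B), (∀ i, (C i).Nonempty) →
      G ⊆ Fintype.piFinset C → α * ∏ i, ((C i).card : ℝ) ≤ G.card →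
      (∀ x ∈ G, ∀ x' ∈ G, ∀ i, (∀ j, j ≠ i → x j = x' j) → W x = W x') →
      ∃ w : B, φ * ∏ i, ((C i).card : ℝ) ≤
        (({x ∈ (G : Set (ι → A)) | W x = w}).ncard : ℝ)

/-! ## Part 3: separation -/

/-- Ham sandwich through the origin. Proof from Borsuk-Ulam,
`Pool.Agent.Helper82.BorsukUlam.borsuk_ulam (m) (f : (Fin (m+1) → ℝ) → (Fin m → ℝ)) (hf : Continuous f)
(hodd : ∀ x, f (-x) = -f x) : ∃ x ∈ K m, f x = 0`, `K m = {x | ∑ |x i| = 1}` (file
`Pool/Agent/Helper82/BorsukUlam.lean` of the graded tree). Let `m + 1 = finrank V`, take a basis of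
the dual of `V` (linear functionals `ℓ 0, …, ℓ m`, `f_x = ∑ x i ℓ i`), inject `ι` into `Fin m`.
For `n ≥ 1` let `g_i(x) = ∑_{u ∈ F i} clamp (n * f_x u)`, `clamp t = max (-1) (min 1 t)`, (and `0`
on the coordinates outside the image of `ι`); it is odd, take a zero `x_n ∈ K m`: then
`#{f_{x_n} u > 1/n} ≤ #{f_{x_n} u < -1/n} + #{|f_{x_n} u| ≤ 1/n}`, so `2 #{u ∈ F i : f_{x_n} u > 1/n} ≤ |F i|`,
and the same for `< -1/n`. A subsequence of `x_n` converges to `x ∈ K m` (`x ≠ 0` so `f_x ≠ 0`); if
`f_x u > 0` then `f_{x_n} u > 1/n` for large `n`. (`Pool/Agent/R98/EQ/Ham.lean` has a similar proof,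
with `clamp`.) -/
def S_HALVE : Prop := ∀ (V : Type) [AddCommGroup V] [Module ℝ V] [FiniteDimensional ℝ V]
  (ι : Type) [Fintype ι], Fintype.card ι < finrank ℝ V → ∀ F : ι → Finset V,
    ∃ f : V →ₗ[ℝ] ℝ, f ≠ 0 ∧ ∀ i, 2 * ({u ∈ (F i : Set V) | 0 < f u}).ncard ≤ (F i).card ∧
      2 * ({u ∈ (F i : Set V) | f u < 0}).ncard ≤ (F i).card

/-- The degenerate alternative: some of the sets lie in a subspace of too small dimension. -/
def Degen {V : Type} [AddCommGroup V] [Module ℝ V] {ι : Type} (E : ι → Finset V) : Prop :=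
  ∃ (J : Finset ι) (U : Submodule ℝ V), finrank ℝ U < J.card ∧ ∀ j ∈ J, ∀ x ∈ E j, x ∈ U

/-- Separation in dimension `n` with the constant `c`: at most `n` finite sets in dimension `n` have
subsets of proportion `c` such that all choices of points of the convex hulls are linearly
independent, or the degenerate alternative holds. -/
def Sep (n : ℕ) (c : ℝ) : Prop :=
  ∀ (V : Type) [AddCommGroup V] [Module ℝ V] [FiniteDimensional ℝ V] (ι : Type) [Fintype ι],
    finrank ℝ V = n → Fintype.card ι ≤ n → ∀ F : ι → Finset V,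
    ∃ E : ι → Finset V, (∀ i, E i ⊆ F i ∧ c * ((F i).card : ℝ) ≤ ((E i).card : ℝ)) ∧
      ((∀ y : ι → V, (∀ i, y i ∈ convexHull ℝ (E i : Set V)) → LinearIndependent ℝ y) ∨ Degen E)

/-- One sign pattern in dimension `n + 1`, given separation in dimension `n`. Proof. If `ι` is empty
there is nothing to show. Otherwise fix `i₀`; `S_HALVE` for the sets `F i`, `i ≠ i₀` (at most `n < n+1`
of them) gives `f ≠ 0` such that for every `i ≠ i₀` each of `{f ≥ 0}`, `{f ≤ 0}` contains at least
half of `F i`; replacing `f` by `-f` if necessary, `{s i₀ * f ≥ 0}` contains at least half of `F i₀`.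
So for all `i` at least half of `F i` has `s i * f ≥ 0`: either a quarter of `F i` has `s i * f > 0`,
let `E₁ i` be this part, or a quarter has `f = 0`, let `E₁ i` be this part; let `J₀` be the set of `i`
of the second kind. If `J₀` has `n + 1` elements then `Degen` holds with `J = J₀`, `U = ker f`
(dimension `n`). Otherwise apply `Sep n c` in `ker f` to the sets `E₁ i`, `i ∈ J₀` (index type `↥J₀`,
at most `n` elements), giving `E i ⊆ E₁ i` for `i ∈ J₀`, and `E i = E₁ i` otherwise. `Degen` for the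
sets in `ker f` gives `Degen E` (map `U` and `J`). Otherwise: if `α i * s i ≥ 0` and
`∑ α i • y i = 0`, `y i ∈ conv (E i)`, apply `f`: all terms `α i * f (y i)` are `≥ 0`, so `α i = 0`
for `i ∉ J₀` (there `s i * f > 0` on `conv (E i)`), and then `α = 0` on `J₀` by linear independence
(in `ker f`; the convex hull of a subset of `ker f` is in `ker f`). -/
def S_PAT : Prop := ∀ (n : ℕ) (c : ℝ), 0 < c → c ≤ 1 → Sep n c →
  ∀ (V : Type) [AddCommGroup V] [Module ℝ V] [FiniteDimensional ℝ V] (ι : Type) [Fintype ι],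
    finrank ℝ V = n + 1 → Fintype.card ι ≤ n + 1 → ∀ (s : ι → ℝ), (∀ i, s i = 1 ∨ s i = -1) →
    ∀ F : ι → Finset V,
    ∃ E : ι → Finset V, (∀ i, E i ⊆ F i ∧ (c / 4) * ((F i).card : ℝ) ≤ ((E i).card : ℝ)) ∧
      ((∀ y : ι → V, (∀ i, y i ∈ convexHull ℝ (E i : Set V)) → ∀ a : ι → ℝ,
        (∀ i, 0 ≤ a i * s i) → ∑ i, a i • y i = 0 → ∀ i, a i = 0) ∨ Degen E)

/-- Separation in every dimension. Proof by induction on `n`: `n = 0`: `ι` is empty, `E = F`,
`c = 1`. Step: run through all sign patterns `s : ι → {1,-1}` (at most `2^{n+1}` of them; a list of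
all patterns, or induction over a `Finset` of patterns) and apply `S_PAT` to the current sets; if the
degenerate alternative occurs once it holds for all further subsets (stop there); the first
alternative for `s` is inherited by subsets. At the end every linear dependence `∑ a i • y i = 0` has
some weakly compatible sign pattern, so `a = 0`. The constant is `(c_n / 4)^{2^{n+1}}`. -/
def S_SEP : Prop := ∀ n : ℕ, ∃ c : ℝ, 0 < c ∧ c ≤ 1 ∧ Sep n c

/-! ## Part 4: homogeneous boxes -/

/-- The tuple `x` is a simplex with `0` in its interior: `0` is in the convex hull and all the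
subfamilies with one vector missing are linearly independent. -/
def Good {V : Type} [AddCommGroup V] [Module ℝ V] {ι : Type} (x : ι → V) : Prop :=
  (0 : V) ∈ convexHull ℝ (Set.range x) ∧
    ∀ i, LinearIndependent ℝ (fun j : {j : ι // j ≠ i} => x j)

/-- Exchange of one vertex. If all choices of points of the convex hulls of the `E j`, `j ≠ i`, are
linearly independent, for every `i`, and one tuple of the box `∏ E j` has `0` in its convex hull, then
all tuples of the box have. Proof. It is enough to change one coordinate `i` at a time (induction over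
a `Finset` of changed coordinates): let `0 ∈ conv (range y)`, `z ∈ E i`, `y' = update y i z`. Write
`0 = ∑ λ j y j`, `λ ≥ 0`, `∑ λ = 1`; all `λ j > 0`, since `λ l = 0` contradicts the independence of
`(y j)_{j ≠ l}`; so `y i = - ∑_{j ≠ i} a j y j` with `a j = λ j / λ i > 0`. The `n` independent
vectors `y j`, `j ≠ i`, span `V`, so `z = - ∑_{j ≠ i} b j y j`. If all `b j ≥ 0` we are done:
`0 = (z + ∑ b j y j) / (1 + ∑ b j)`. If `b l < 0`, let `t = a l / (a l - b l) ∈ (0, 1)` and
`u = (1 - t) y i + t z ∈ conv (E i)`; the coefficient of `y l` in `u` vanishes, so `u` is a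
combination of the `y j`, `j ≠ i, l`, which contradicts the independence of the family
`update y i u` without the index `l`. -/
def S_REP : Prop := ∀ (V : Type) [AddCommGroup V] [Module ℝ V] [FiniteDimensional ℝ V]
  (ι : Type) [Fintype ι], Fintype.card ι = finrank ℝ V + 1 → ∀ E : ι → Finset V,
    (∀ i, ∀ y : ι → V, (∀ j, y j ∈ convexHull ℝ (E j : Set V)) →
      LinearIndependent ℝ (fun j : {j : ι // j ≠ i} => y j)) →
    (∃ x : ι → V, (∀ j, x j ∈ E j) ∧ (0 : V) ∈ convexHull ℝ (Set.range x)) →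
    ∀ y : ι → V, (∀ j, y j ∈ E j) → (0 : V) ∈ convexHull ℝ (Set.range y)

/-- Homogeneous boxes in a dense set of good tuples. Proof from `S_REG`, `S_SEP`, `S_REP`. Let
`n = finrank V`, `c₀` from `S_SEP n`, `γ = c₀^{n+1}`, `D` from `S_REG`. For `i` running through the
`n + 1` elements of `ι` apply `Sep n c₀` to the current sets with indices `j ≠ i` (index type
`{j // j ≠ i}`, `n` elements), the set with index `i` stays. All sets stay of size `≥ γ |D j|`, so by
`S_REG` the current box always contains some `x ∈ G`, which is `Good`; this excludes `Degen` for the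
sets with indices `≠ i`: the vectors `x j`, `j ∈ J`, are linearly independent and lie in `U`,
`finrank U < |J|`. At the end apply `S_REP` (the independence is inherited by subsets, and only the
coordinates `≠ i` matter; the sets are nonempty, so any choice on `{j // j ≠ i}` extends), the tuple
`x` again from `S_REG`. -/
def S_HOM : Prop := ∀ (n : ℕ) (α : ℝ), 0 < α → ∃ c : ℝ, 0 < c ∧
  ∀ (V : Type) [AddCommGroup V] [Module ℝ V] [FiniteDimensional ℝ V] (ι : Type) [Fintype ι]
    [DecidableEq ι], finrank ℝ V = n → Fintype.card ι = n + 1 →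
    ∀ (C : ι → Finset V) (G : Finset (ι → V)), (∀ i, (C i).Nonempty) →
      G ⊆ Fintype.piFinset C → α * ∏ i, ((C i).card : ℝ) ≤ G.card → (∀ x ∈ G, Good x) →
      ∃ D : ι → Finset V, (∀ i, D i ⊆ C i ∧ c * ((C i).card : ℝ) ≤ ((D i).card : ℝ)) ∧
        ∀ x : ι → V, (∀ i, x i ∈ D i) → (0 : V) ∈ convexHull ℝ (Set.range x)

/-- Minimal supports. If `0 ∈ conv (range x)` there is a set `I` of indices such that the restriction
of `x` to `I` is `Good`. Proof: let `I` be minimal (for inclusion, or of minimal cardinality) with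
`0 ∈ conv (x '' I)`, `I ≠ ∅`. Write `0 = ∑_{i ∈ I} λ i x i`, all `λ i > 0` (else drop `i`). If
`∑_{j ∈ I, j ≠ i} μ j x j = 0` with `μ ≠ 0`, we may assume some `μ j > 0`; subtract the largest
multiple `t μ` of `μ` with `λ - t μ ≥ 0` (with `μ i = 0`): a convex combination, after scaling by the
sum `≥ λ i > 0`, with smaller support, a contradiction. -/
def S_MIN : Prop := ∀ (V : Type) [AddCommGroup V] [Module ℝ V] (ι : Type) [Fintype ι] (x : ι → V),
  (0 : V) ∈ convexHull ℝ (Set.range x) →
    ∃ I : Finset ι, I.Nonempty ∧ Good (fun i : {i : ι // i ∈ I} => x i)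

/-- Transfer of `S_HOM` to a subspace. Proof: `0 ∈ conv (range x)` shows that `ι` is not empty and
that `x` is linearly dependent; `Good` shows that `finrank W = |ι| - 1` (the `|ι| - 1` independent
vectors `x j`, `j ≠ i`, span `W`: `0 = ∑ λ j x j` with `λ i ≠ 0`, since otherwise the others would be
dependent). Let `C' i : Finset W` be the set of points of `C i` in `W` and `G'` the set of the tuples
of `G`, which are tuples in `W` (`x i ∈ span (range x) = W`); `|G'| = |G| ≥ α ∏ |C i| ≥ α ∏ |C' i|`, and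
`|C' i| ≥ α |C i|` since `α ∏ |C j| ≤ |G'| ≤ ∏ |C' j| ≤ |C' i| ∏_{j ≠ i} |C j|`. Apply `S_HOM` in the space
`W` (`Good` and the conclusion transfer along the injective linear map `W → V`), let `D i` be the
images in `V`. Here `c = α * c_HOM (k - 1) α`. -/
def S_SUB : Prop := ∀ (k : ℕ) (α : ℝ), 0 < α → ∃ c : ℝ, 0 < c ∧
  ∀ (V : Type) [AddCommGroup V] [Module ℝ V] [FiniteDimensional ℝ V] (ι : Type) [Fintype ι]
    [DecidableEq ι], Fintype.card ι = k →
    ∀ (C : ι → Finset V) (G : Finset (ι → V)) (W : Submodule ℝ V), (∀ i, (C i).Nonempty) →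
      G ⊆ Fintype.piFinset C → α * ∏ i, ((C i).card : ℝ) ≤ G.card →
      (∀ x ∈ G, Good x ∧ Submodule.span ℝ (Set.range x) = W) →
      ∃ D : ι → Finset V, (∀ i, D i ⊆ C i ∧ c * ((C i).card : ℝ) ≤ ((D i).card : ℝ)) ∧
        ∀ x : ι → V, (∀ i, x i ∈ D i) → (0 : V) ∈ convexHull ℝ (Set.range x)

/-- The same without a fixed subspace. Proof from `S_CLS` and `S_SUB`: apply `S_CLS` with
`W x = span (range x)`: if `x, x' ∈ G` differ only in the coordinate `i` then both spans are the span
of the other vectors (`x i` is a combination of them: `0 = ∑ λ j x j` with `λ i ≠ 0`, since otherwise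
the others would be dependent, as some `λ j ≠ 0`). -/
def S_LEV : Prop := ∀ (k : ℕ) (α : ℝ), 0 < α → ∃ c : ℝ, 0 < c ∧
  ∀ (V : Type) [AddCommGroup V] [Module ℝ V] [FiniteDimensional ℝ V] (ι : Type) [Fintype ι]
    [DecidableEq ι], Fintype.card ι = k →
    ∀ (C : ι → Finset V) (G : Finset (ι → V)), (∀ i, (C i).Nonempty) →
      G ⊆ Fintype.piFinset C → α * ∏ i, ((C i).card : ℝ) ≤ G.card → (∀ x ∈ G, Good x) →
      ∃ D : ι → Finset V, (∀ i, D i ⊆ C i ∧ c * ((C i).card : ℝ) ≤ ((D i).card : ℝ)) ∧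
        ∀ x : ι → V, (∀ i, x i ∈ D i) → (0 : V) ∈ convexHull ℝ (Set.range x)

/-- From a dense set of rainbow simplices containing `0` to the homogeneous selection. Proof from
`S_MIN`, `S_LEV`. Let `G₀ = {x ∈ ∏ C i : 0 ∈ conv (range x)}`. By `S_MIN` and pigeonhole over the
`2^{d+1}` sets `I` there is `I` such that for at least `(c/2^{d+1}) ∏ |C i|` of the `x ∈ G₀` the
restriction to `I` is `Good`. Let `G_I` be the set of these restrictions (tuples indexed by `↥I`);
its density in `∏_{i ∈ I} C i` is at least `α = c / 2^{d+1}` (fibres have at most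
`∏_{i ∉ I} |C i|` elements). `S_LEV` gives `D i` for `i ∈ I`, and `D i = C i` for `i ∉ I`
(`convexHull_mono`). The constant `c'` is the minimum of `1` and the constants of `S_LEV` for
`k ∈ {0, …, d + 1}` and this `α`. -/
def S_RED : Prop := ∀ (d : ℕ) (c : ℝ), 0 < c → ∃ c' : ℝ, 0 < c' ∧
  ∀ C : Fin (d + 1) → Finset (EuclideanSpace ℝ (Fin d)), (∀ i, (C i).Nonempty) →
    c * ∏ i, ((C i).card : ℝ) ≤
      (({x ∈ (Fintype.piFinset C : Set (Fin (d + 1) → EuclideanSpace ℝ (Fin d))) |
        (0 : EuclideanSpace ℝ (Fin d)) ∈ convexHull ℝ (Set.range x)}).ncard : ℝ) →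
    ∃ D : Fin (d + 1) → Finset (EuclideanSpace ℝ (Fin d)),
      (∀ i, D i ⊆ C i ∧ c' * ((C i).card : ℝ) ≤ ((D i).card : ℝ)) ∧
      ∀ x : Fin (d + 1) → EuclideanSpace ℝ (Fin d), (∀ i, x i ∈ D i) →
        (0 : EuclideanSpace ℝ (Fin d)) ∈ convexHull ℝ (Set.range x)

/-- The final statement. Proof from `S_SEL` and `S_RED`: translate by `-p`. -/
def S_MAIN : Prop := ∀ d : ℕ, ∃ c : ℝ, 0 < c ∧
  ∀ C : Fin (d + 1) → Finset (EuclideanSpace ℝ (Fin d)), (∀ i, (C i).Nonempty) →
    ∃ (p : EuclideanSpace ℝ (Fin d)) (D : Fin (d + 1) → Finset (EuclideanSpace ℝ (Fin d))),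
      (∀ i, D i ⊆ C i ∧ c * ((C i).card : ℝ) ≤ ((D i).card : ℝ)) ∧
      ∀ x : Fin (d + 1) → EuclideanSpace ℝ (Fin d), (∀ i, x i ∈ D i) →
        p ∈ convexHull ℝ (Set.range x)

end Run7.h940.PACH
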