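import Pool.Agent.Run7.h940.PACH.Iface

set_option autoImplicit false

namespace Run7.h940.PACH
open Finset

theorem t_AVG : S_AVG := by
  intro ι α _ _ C j f hC
  classical
  have key : ∑ q ∈ C j ×ˢ Fintype.piFinset C, f (Function.update q.2 j q.1) =
      ∑ q ∈ C j ×ˢ Fintype.piFinset C, f q.2 := by
    refine Finset.sum_nbij' (fun q => (q.2 j, Function.update q.2 j q.1))
      (fun q => (q.2 j, Function.update q.2 j q.1)) ?_ ?_ ?_ ?_ ?_
    · rintro ⟨a, y⟩ h
      simp only [mem_product, Fintype.mem_piFinset] at h ⊢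
      refine ⟨h.2 j, fun i => ?_⟩
      by_cases hi : i = j
      · subst hi; simpa using h.1
      · simpa [Function.update_of_ne hi] using h.2 i
    · rintro ⟨a, y⟩ h
      simp only [mem_product, Fintype.mem_piFinset] at h ⊢
      refine ⟨h.2 j, fun i => ?_⟩
      by_cases hi : i = j
      · subst hi; simpa using h.1
      · simpa [Function.update_of_ne hi] using h.2 i
    · rintro ⟨a, y⟩ h
      simp
    · rintro ⟨a, y⟩ h
      simp
    · rintro ⟨a, y⟩ h
      simp
  rw [Finset.sum_product, Finset.sum_product] at key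
  exact Finset.exists_le_of_sum_le (hC j) key.le

end Run7.h940.PACH
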