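import Pool.Agent.Run7.h940.PACH.END
import Pool.Agent.H15.Brouwer

set_option autoImplicit false

namespace Run7.h940.PACH.DU
open Finset Module Filter Topology
open scoped RealInnerProductSpace

/-- `ℝ^d` -/
abbrev V (d : ℕ) := EuclideanSpace ℝ (Fin d)

/-- the vector from `q` to the nearest point of the hyperplane `{x | ⟪n, x⟫ = c}`, `h = (n, c)` -/
noncomputable def vf {d : ℕ} (h : V d × ℝ) (q : V d) : V d := (h.2 - ⟪h.1, q⟫) • h.1

/-- the operator `n ⊗ n` -/
noncomputable def op {d : ℕ} (n : V d) : V d →L[ℝ] V d := (innerSL ℝ n).smulRight n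

theorem op_apply {d : ℕ} (n q : V d) : op n q = (⟪n, q⟫ : ℝ) • n := by
  simp [op]

/-- A bounded set from the absence of recession directions. -/
theorem cell_bdd {d : ℕ} (S : Finset (V d × ℝ)) (σ : V d × ℝ → ℝ)
    (hrec : ∀ u : V d, (∀ h ∈ S, 0 ≤ σ h * -⟪h.1, u⟫ ∧ (σ h = 0 → ⟪h.1, u⟫ = 0)) → u = 0) :
    ∃ R : ℝ, ∀ y : V d,
      (∀ h ∈ S, 0 ≤ σ h * (h.2 - ⟪h.1, y⟫) ∧ (σ h = 0 → h.2 - ⟪h.1, y⟫ = 0)) → ‖y‖ ≤ R := by
  by_contra hcon
  push Not at hcon
  choose y hy hyn using fun k : ℕ => hcon (k + 1)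
  have hpos : ∀ k, 0 < ‖y k‖ := fun k => lt_trans (by positivity) (hyn k)
  let u : ℕ → V d := fun k => ‖y k‖⁻¹ • y k
  have hu : ∀ k, u k ∈ Metric.sphere (0 : V d) 1 := by
    intro k
    simp [u, norm_smul, (hpos k).ne']
  obtain ⟨u0, hu0, φ, hφ, hlim⟩ := (isCompact_sphere (0 : V d) 1).tendsto_subseq hu
  have hinv : Tendsto (fun k => ‖y (φ k)‖⁻¹) atTop (𝓝 0) := by
    apply tendsto_inv_atTop_zero.comp
    refine tendsto_atTop_mono (fun k => (hyn (φ k)).le) ?_
    have h1 : Tendsto (fun k => ((φ k : ℕ) : ℝ)) atTop atTop :=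
      tendsto_natCast_atTop_atTop.comp hφ.tendsto_atTop
    exact tendsto_atTop_add_const_right _ _ h1
  have hexp : ∀ (h : V d × ℝ), Tendsto (fun k => ‖y (φ k)‖⁻¹ * (h.2 - ⟪h.1, y (φ k)⟫)) atTop
      (𝓝 (0 * h.2 - ⟪h.1, u0⟫)) := by
    intro h
    have h1 : ∀ k, ‖y (φ k)‖⁻¹ * (h.2 - ⟪h.1, y (φ k)⟫) = ‖y (φ k)‖⁻¹ * h.2 - ⟪h.1, u (φ k)⟫ := by
      intro k
      simp only [u, inner_smul_right]
      ring
    simp only [h1]
    refine (hinv.mul_const _).sub ?_
    exact (Continuous.inner continuous_const continuous_id).continuousAt.tendsto.comp hlim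
  have hz : u0 = 0 := by
    refine hrec u0 fun h hh => ⟨?_, fun hs => ?_⟩
    · have h2 : Tendsto (fun k => σ h * (‖y (φ k)‖⁻¹ * (h.2 - ⟪h.1, y (φ k)⟫))) atTop
          (𝓝 (σ h * (0 * h.2 - ⟪h.1, u0⟫))) := (hexp h).const_mul _
      have h3 : 0 ≤ σ h * (0 * h.2 - ⟪h.1, u0⟫) := by
        refine ge_of_tendsto' h2 fun k => ?_
        have := (hy (φ k) h hh).1
        have h4 := hpos (φ k)
        calc (0 : ℝ) ≤ ‖y (φ k)‖⁻¹ * (σ h * (h.2 - ⟪h.1, y (φ k)⟫)) := by positivity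
          _ = _ := by ring
      simpa using h3
    · have h2 := hexp h
      have h3 : ∀ k, ‖y (φ k)‖⁻¹ * (h.2 - ⟪h.1, y (φ k)⟫) = 0 := by
        intro k
        rw [(hy (φ k) h hh).2 hs, mul_zero]
      simp only [h3] at h2
      have := tendsto_nhds_unique h2 tendsto_const_nhds
      have h5 : 0 * h.2 - ⟪h.1, u0⟫ = 0 := this
      linarith
  rw [hz] at hu0
  simp at hu0

/-- The uniform bound for the regularised zeros. -/
theorem zero_bound {d : ℕ} (S : Finset (V d × ℝ)) : ∃ R : ℝ, 0 ≤ R ∧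
    ∀ (ι : Type) [Fintype ι] (x : ι → V d × ℝ) (w : ι → ℝ) (ε : ℝ) (q : V d), (∀ i, x i ∈ S) →
      (∀ i, 0 ≤ w i) → 0 < ε → ∑ i, w i • vf (x i) q = ε • q → ‖q‖ ≤ R := by
  classical
  -- add the coordinate hyperplanes
  let T : Finset (V d × ℝ) := S ∪ univ.image fun k : Fin d => (EuclideanSpace.single k (1 : ℝ), (0 : ℝ))
  -- sign vectors
  let sg : (T → SignType) → V d × ℝ → ℝ := fun s h => if hh : h ∈ T then ((s ⟨h, hh⟩ : SignType) : ℝ) else 0
  have hR : ∀ s : T → SignType, ∃ R : ℝ, (∀ u : V d, (∀ h ∈ T, 0 ≤ sg s h * -⟪h.1, u⟫ ∧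
      (sg s h = 0 → ⟪h.1, u⟫ = 0)) → u = 0) → ∀ y : V d,
      (∀ h ∈ T, 0 ≤ sg s h * (h.2 - ⟪h.1, y⟫) ∧ (sg s h = 0 → h.2 - ⟪h.1, y⟫ = 0)) → ‖y‖ ≤ R := by
    intro s
    by_cases h : ∀ u : V d, (∀ h ∈ T, 0 ≤ sg s h * -⟪h.1, u⟫ ∧ (sg s h = 0 → ⟪h.1, u⟫ = 0)) → u = 0
    · obtain ⟨R, hR⟩ := cell_bdd T (sg s) h
      exact ⟨R, fun _ => hR⟩
    · exact ⟨0, fun h' => absurd h' h⟩
  choose R hR using hR
  refine ⟨∑ s, |R s|, Finset.sum_nonneg fun s _ => abs_nonneg _, ?_⟩
  intro ι _ x w ε q hx hw hε heq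
  let s : T → SignType := fun h => SignType.sign ((h : V d × ℝ).2 - ⟪(h : V d × ℝ).1, q⟫)
  have hsg : ∀ h ∈ T, sg s h = ((SignType.sign (h.2 - ⟪h.1, q⟫) : SignType) : ℝ) := by
    intro h hh
    simp only [sg, dif_pos hh, s]
  have hle : ‖q‖ ≤ R s := by
    refine hR s ?_ q ?_
    · intro u hu
      -- inner product of the equation with u
      have h1 : ∑ i, w i * ((x i).2 - ⟪(x i).1, q⟫) * ⟪(x i).1, u⟫ = ε * ⟪q, u⟫ := by
        have := congrArg (fun z : V d => (⟪z, u⟫ : ℝ)) heq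
        simp only [sum_inner, inner_smul_left, vf, smul_smul] at this
        simpa [mul_assoc] using this
      have h2 : ∑ i, w i * ((x i).2 - ⟪(x i).1, q⟫) * ⟪(x i).1, u⟫ ≤ 0 := by
        refine Finset.sum_nonpos fun i _ => ?_
        have hxi : x i ∈ T := mem_union_left _ (hx i)
        obtain ⟨ha, hb⟩ := hu _ hxi
        rw [hsg _ hxi] at ha hb
        have h3 : ((x i).2 - ⟪(x i).1, q⟫) * ⟪(x i).1, u⟫ ≤ 0 := by
          rcases lt_trichotomy ((x i).2 - ⟪(x i).1, q⟫) 0 with h | h | h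
          · rw [sign_neg h] at ha
            have : 0 ≤ (⟪(x i).1, u⟫ : ℝ) := by simpa using ha
            nlinarith
          · rw [h]; simp
          · rw [sign_pos h] at ha
            have : (⟪(x i).1, u⟫ : ℝ) ≤ 0 := by simpa using ha
            nlinarith
        have := hw i
        nlinarith
      have hk : ∀ k : Fin d, 0 ≤ q k * u k ∧ (q k = 0 → u k = 0) := by
        intro k
        have hkT : ((EuclideanSpace.single k (1 : ℝ), (0 : ℝ)) : V d × ℝ) ∈ T :=
          mem_union_right _ (mem_image_of_mem _ (mem_univ k))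
        obtain ⟨ha, hb⟩ := hu _ hkT
        rw [hsg _ hkT] at ha hb
        have e1 : (⟪(EuclideanSpace.single k (1 : ℝ) : V d), q⟫ : ℝ) = q k := by
          simp [EuclideanSpace.inner_single_left]
        have e2 : (⟪(EuclideanSpace.single k (1 : ℝ) : V d), u⟫ : ℝ) = u k := by
          simp [EuclideanSpace.inner_single_left]
        simp only [e1, e2, zero_sub] at ha hb
        rcases lt_trichotomy (q k) 0 with h | h | h
        · rw [sign_pos (by linarith : 0 < -q k)] at ha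
          have : u k ≤ 0 := by simpa using ha
          exact ⟨by nlinarith, fun h' => absurd h' h.ne⟩
        · rw [h] at hb
          refine ⟨by rw [h]; simp, fun _ => hb (by simp)⟩
        · rw [sign_neg (by linarith : -q k < 0)] at ha
          have : 0 ≤ u k := by simpa using ha
          exact ⟨by nlinarith, fun h' => absurd h' h.ne'⟩
      have h4 : (⟪q, u⟫ : ℝ) = ∑ k, q k * u k := by
        rw [PiLp.inner_apply]
        refine Finset.sum_congr rfl fun k _ => ?_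
        simp [mul_comm]
      have h5 : ∑ k, q k * u k = 0 := by
        have h6 : 0 ≤ ∑ k, q k * u k := Finset.sum_nonneg fun k _ => (hk k).1
        have h7 : ε * ∑ k, q k * u k ≤ 0 := by rw [← h4, ← h1]; exact h2
        nlinarith
      have h8 := (Finset.sum_eq_zero_iff_of_nonneg fun k _ => (hk k).1).1 h5
      ext k
      have h9 := h8 k (mem_univ k)
      rcases mul_eq_zero.1 h9 with h | h
      · simpa using (hk k).2 h
      · simpa using h
    · intro h hh
      rw [hsg h hh]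
      rcases lt_trichotomy (h.2 - ⟪h.1, q⟫) 0 with h' | h' | h'
      · rw [sign_neg h']
        refine ⟨by simp; linarith, fun h'' => ?_⟩
        simp at h''
      · rw [h']; simp
      · rw [sign_pos h']
        refine ⟨by simp; linarith, fun h'' => ?_⟩
        simp at h''
  refine hle.trans ((le_abs_self _).trans ?_)
  exact Finset.single_le_sum (f := fun s => |R s|) (fun s _ => abs_nonneg _) (mem_univ s)

end Run7.h940.PACH.DU
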