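import Pool.Agent.Run7.h940.PACH.DU1

set_option autoImplicit false

namespace Run7.h940.PACH.DU
open Finset Module Filter Topology
open scoped RealInnerProductSpace

theorem gmap : S_GMAP := Run7.h463.PACH.t_GMAP Run7.h898.PACH.t_GM1

theorem vf_inner_le {d : ℕ} (h : V d × ℝ) (q : V d) : (⟪vf h q, q⟫ : ℝ) ≤ h.2 ^ 2 := by
  rw [vf, inner_smul_left]
  simp only [conj_trivial]
  nlinarith [sq_nonneg (h.2 - ⟪h.1, q⟫), sq_nonneg (⟪h.1, q⟫ : ℝ), sq_nonneg (h.2)]

/-- The vector field which interpolates the fields of the chosen hyperplanes has a zero. -/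
theorem field_zero {d : ℕ} (S : Finset (V d × ℝ)) (R : ℝ)
    (hR : ∀ (ι : Type) [Fintype ι] (x : ι → V d × ℝ) (w : ι → ℝ) (ε : ℝ) (q : V d),
      (∀ i, x i ∈ S) → (∀ i, 0 ≤ w i) → 0 < ε → ∑ i, w i • vf (x i) q = ε • q → ‖q‖ ≤ R)
    (x : (Fin d → ℤ) → V d × ℝ) (hx : ∀ z, x z ∈ S) (s : ℝ) :
    ∃ q : V d, ‖q‖ ≤ R ∧ ∃ w, IsFlag w ∧ (∀ i, |(w 0 i : ℝ) - s * q i| ≤ 1) ∧
      (0 : V d) ∈ convexHull ℝ (Set.range fun j => vf (x (w j)) q) := by
  classical
  obtain ⟨G, hGc, hG⟩ := gmap d (V d × (V d →L[ℝ] V d))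
    (fun z => ((x z).2 • (x z).1, op (x z).1))
  let P : V d → (Fin d → ℝ) := fun q i => s * q i
  have hP : Continuous P := by
    refine continuous_pi fun i => ?_
    exact continuous_const.mul (continuous_apply i |>.comp (PiLp.continuous_ofLp 2 _))
  let G0 : V d → V d := fun q => (G (P q)).1 - (G (P q)).2 q
  have hG0c : Continuous G0 := by
    have h1 : Continuous fun q => G (P q) := hGc.comp hP
    exact h1.fst.sub (h1.snd.clm_apply continuous_id)
  have hflag : ∀ q, ∃ w, IsFlag w ∧ (∀ i, |(w 0 i : ℝ) - s * q i| ≤ 1) ∧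
      ∃ l : Fin (d + 1) → ℝ, (∀ j, 0 ≤ l j) ∧ ∑ j, l j = 1 ∧
        ∑ j, l j • vf (x (w j)) q = G0 q := by
    intro q
    obtain ⟨w, hw, hnear, hconv⟩ := hG (P q)
    obtain ⟨l, hl0, hl1, hl⟩ := (mem_hull _ _).1 hconv
    refine ⟨w, hw, hnear, l, hl0, hl1, ?_⟩
    have h1 := congrArg Prod.fst hl
    have h2 := congrArg (fun z : V d × (V d →L[ℝ] V d) => z.2 q) hl
    simp only [Prod.fst_sum, Prod.smul_fst] at h1
    simp only [Prod.snd_sum, Prod.smul_snd, _root_.sum_apply,
      _root_.smul_apply, op_apply] at h2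
    simp only [G0]
    rw [← h1, ← h2, ← Finset.sum_sub_distrib]
    refine Finset.sum_congr rfl fun j _ => ?_
    rw [vf, ← smul_sub, sub_smul]
  set M : ℝ := ∑ h ∈ S, h.2 ^ 2 with hM
  have hM0 : 0 ≤ M := Finset.sum_nonneg fun _ _ => sq_nonneg _
  have hMle : ∀ h ∈ S, h.2 ^ 2 ≤ M := fun h hh =>
    Finset.single_le_sum (f := fun h : V d × ℝ => h.2 ^ 2) (fun _ _ => sq_nonneg _) hh
  have hin : ∀ q, (⟪G0 q, q⟫ : ℝ) ≤ M := by
    intro q
    obtain ⟨w, _, _, l, hl0, hl1, hl⟩ := hflag q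
    rw [← hl, sum_inner]
    calc ∑ j, (⟪l j • vf (x (w j)) q, q⟫ : ℝ) = ∑ j, l j * ⟪vf (x (w j)) q, q⟫ := by
          refine Finset.sum_congr rfl fun j _ => ?_
          rw [inner_smul_left]; simp
      _ ≤ ∑ j, l j * M := by
          refine Finset.sum_le_sum fun j _ => ?_
          exact mul_le_mul_of_nonneg_left ((vf_inner_le _ _).trans (hMle _ (hx _))) (hl0 j)
      _ = M := by rw [← Finset.sum_mul, hl1, one_mul]
  -- regularised zeros
  have hreg : ∀ ε : ℝ, 0 < ε → ∃ q, G0 q = ε • q ∧ ‖q‖ ≤ R := by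
    intro ε hε
    set ρ : ℝ := (M + 1) / ε + 1 with hρ
    have hρ1 : 1 ≤ ρ := by
      have : 0 ≤ (M + 1) / ε := by positivity
      linarith
    have hρpos : 0 < ρ := by linarith
    have hρM : M < ε * ρ ^ 2 := by
      have h1 : M + 1 ≤ ε * ρ := by
        rw [hρ, mul_add, mul_div_cancel₀ _ hε.ne']; linarith
      nlinarith
    let W : V d → V d := fun q => G0 q - ε • q
    have hWc : Continuous W := hG0c.sub (continuous_const_smul ε)
    let T : V d → V d := fun q => (ρ / max ρ ‖q + W q‖) • (q + W q)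
    have hmax : ∀ q, 0 < max ρ ‖q + W q‖ := fun q => lt_max_of_lt_left hρpos
    have hA : Continuous fun q : V d => q + W q := continuous_id.add hWc
    have hB : Continuous fun q : V d => ρ / max ρ ‖q + W q‖ :=
      Continuous.div continuous_const (continuous_const.max hA.norm) fun q => (hmax q).ne'
    have hTc : Continuous T := hB.smul hA
    obtain ⟨q, hq⟩ := Pool.Agent.H15.Brouwer.fixed_of_bounded T hTc ρ (fun q => by
      simp only [T, norm_smul, Real.norm_of_nonneg (div_nonneg hρpos.le (hmax q).le)]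
      rw [div_mul_eq_mul_div, div_le_iff₀ (hmax q)]
      exact mul_le_mul_of_nonneg_left (le_max_right _ _) hρpos.le)
    have hW0 : W q = 0 := by
      by_cases hcase : ‖q + W q‖ ≤ ρ
      · have h1 : T q = q + W q := by
          simp only [T, max_eq_left hcase, div_self hρpos.ne', one_smul]
        rw [h1] at hq
        simpa using hq
      · exfalso
        push Not at hcase
        set m := ‖q + W q‖ with hm
        have hm0 : 0 < m := hρpos.trans hcase
        have h1 : T q = (ρ / m) • (q + W q) := by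
          simp only [T]
          rw [← hm, max_eq_right hcase.le]
        have h2 : ‖q‖ = ρ := by
          rw [← hq, h1, norm_smul, ← hm, Real.norm_of_nonneg (by positivity), div_mul_cancel₀ _ hm0.ne']
        have h3 : W q = (m / ρ - 1) • q := by
          have h4 : (m / ρ) • q = q + W q := by
            conv_lhs => rw [← hq, h1]
            rw [smul_smul, div_mul_div_cancel₀ hρpos.ne', div_self hm0.ne', one_smul]
          rw [sub_smul, one_smul, h4]; abel
        have h5 : (⟪W q, q⟫ : ℝ) = (m / ρ - 1) * ρ ^ 2 := by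
          rw [h3, inner_smul_left, real_inner_self_eq_norm_sq, h2]; simp
        have h6 : (⟪W q, q⟫ : ℝ) ≤ M - ε * ρ ^ 2 := by
          simp only [W, inner_sub_left, inner_smul_left, real_inner_self_eq_norm_sq, h2]
          have := hin q
          simp only [conj_trivial]
          linarith
        have h7 : 0 < m / ρ - 1 := by
          have : 1 < m / ρ := by rw [one_lt_div hρpos]; exact hcase
          linarith
        have h8 : 0 < (m / ρ - 1) * ρ ^ 2 := by positivity
        linarith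
    have hG0q : G0 q = ε • q := sub_eq_zero.1 hW0
    refine ⟨q, hG0q, ?_⟩
    obtain ⟨w, _, _, l, hl0, _, hl⟩ := hflag q
    exact hR (Fin (d + 1)) (fun j => x (w j)) l ε q (fun j => hx _) hl0 hε (by rw [hl, hG0q])
  choose! qe hqe using hreg
  let a : ℕ → V d := fun k => qe (1 / (k + 1 : ℝ))
  have hapos : ∀ k : ℕ, (0 : ℝ) < 1 / (k + 1 : ℝ) := fun k => by positivity
  have hmem : ∀ k, a k ∈ Metric.closedBall (0 : V d) R := by
    intro k
    rw [mem_closedBall_zero_iff]
    exact (hqe _ (hapos k)).2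
  obtain ⟨q0, hq0, φ, hφ, hlim⟩ := (isCompact_closedBall (0 : V d) R).tendsto_subseq hmem
  have hG00 : G0 q0 = 0 := by
    have h1 : Tendsto (fun k => G0 (a (φ k))) atTop (𝓝 (G0 q0)) :=
      (hG0c.tendsto q0).comp hlim
    have h2 : ∀ k, G0 (a (φ k)) = (1 / ((φ k : ℕ) + 1 : ℝ)) • a (φ k) := fun k =>
      (hqe _ (hapos (φ k))).1
    simp only [h2] at h1
    have h3 : Tendsto (fun k => (1 / ((φ k : ℕ) + 1 : ℝ)) • a (φ k)) atTop (𝓝 ((0 : ℝ) • q0)) := by
      refine Tendsto.smul ?_ hlim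
      exact tendsto_one_div_add_atTop_nhds_zero_nat.comp hφ.tendsto_atTop
    rw [zero_smul] at h3
    exact tendsto_nhds_unique h1 h3
  obtain ⟨w, hw, hnear, l, hl0, hl1, hl⟩ := hflag q0
  refine ⟨q0, mem_closedBall_zero_iff.1 hq0, w, hw, hnear, ?_⟩
  exact (mem_hull _ _).2 ⟨l, hl0, hl1, by rw [hl, hG00]⟩

end Run7.h940.PACH.DU
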