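import Pool.Agent.Run7.h940.PACH.DU2

set_option autoImplicit false

namespace Run7.h940.PACH.DU
open Finset Module Filter Topology
open scoped RealInnerProductSpace

theorem vf_cont {d : ℕ} (h : V d × ℝ) : Continuous (vf h) := by
  unfold vf
  fun_prop

/-- the points of a ball at which the nearest points of the hyperplanes `x i` surround the point -/
def K {d : ℕ} (R : ℝ) (x : Fin (d + 1) → V d × ℝ) : Set (V d) :=
  {q | ‖q‖ ≤ R ∧ (0 : V d) ∈ convexHull ℝ (Set.range fun i => vf (x i) q)}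

theorem K_compact {d : ℕ} (R : ℝ) (x : Fin (d + 1) → V d × ℝ) : IsCompact (K R x) := by
  have h1 : IsCompact ((stdSimplex ℝ (Fin (d + 1))) ×ˢ Metric.closedBall (0 : V d) R) :=
    (isCompact_stdSimplex ℝ _).prod (isCompact_closedBall _ _)
  have hc : Continuous fun p : (Fin (d + 1) → ℝ) × V d => ∑ i, p.1 i • vf (x i) p.2 := by
    refine continuous_finsetSum _ fun i _ => ?_
    exact ((continuous_apply i).comp continuous_fst).smul ((vf_cont _).comp continuous_snd)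
  have h2 : IsCompact (((stdSimplex ℝ (Fin (d + 1))) ×ˢ Metric.closedBall (0 : V d) R) ∩
      {p : (Fin (d + 1) → ℝ) × V d | ∑ i, p.1 i • vf (x i) p.2 = 0}) :=
    h1.inter_right (isClosed_eq hc continuous_const)
  have h3 : K R x = Prod.snd '' (((stdSimplex ℝ (Fin (d + 1))) ×ˢ Metric.closedBall (0 : V d) R) ∩
      {p : (Fin (d + 1) → ℝ) × V d | ∑ i, p.1 i • vf (x i) p.2 = 0}) := by
    ext q
    constructor
    · rintro ⟨hq, h0⟩
      obtain ⟨l, hl0, hl1, hl⟩ := (mem_hull _ _).1 h0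
      exact ⟨(l, q), ⟨⟨⟨hl0, hl1⟩, mem_closedBall_zero_iff.2 hq⟩, hl⟩, rfl⟩
    · rintro ⟨⟨l, q'⟩, ⟨⟨⟨hl0, hl1⟩, hq'⟩, hl⟩, rfl⟩
      exact ⟨mem_closedBall_zero_iff.1 hq', (mem_hull _ _).2 ⟨l, hl0, hl1, hl⟩⟩
  rw [h3]
  exact h2.image continuous_snd

/-- Coloured first selection for hyperplanes. -/
theorem selH (d : ℕ) : ∃ c : ℝ, 0 < c ∧ ∀ A : Fin (d + 1) → Finset (V d × ℝ),
    (∀ i, (A i).Nonempty) → ∃ q : V d, c * ∏ i, ((A i).card : ℝ) ≤
      (({x ∈ (Fintype.piFinset A : Set (Fin (d + 1) → V d × ℝ)) |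
        (0 : V d) ∈ convexHull ℝ (Set.range fun i => vf (x i) q)}).ncard : ℝ) := by
  classical
  set D : ℕ := 2 ^ d * d.factorial with hD
  have hD0 : 0 < D := by positivity
  have hD1 : (0 : ℝ) < (D : ℝ) := by exact_mod_cast hD0
  refine ⟨1 / (D : ℝ), by positivity, fun C hC => ?_⟩
  by_contra hcon
  push Not at hcon
  set N : ℕ := (Fintype.piFinset C).card with hN
  have hNprod : (∏ i, ((C i).card : ℝ)) = (N : ℝ) := by
    rw [hN, Fintype.card_piFinset]
    push_cast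
    rfl
  obtain ⟨R, hR0, hR⟩ := zero_bound (Finset.univ.biUnion C)
  set T := (Fintype.piFinset C).filter fun x => (K R x).Nonempty with hT
  have hsubT : ∀ p : V d, {y ∈ (T : Set (Fin (d + 1) → V d × ℝ)) | p ∈ K R y} ⊆
      {x ∈ (Fintype.piFinset C : Set (Fin (d + 1) → V d × ℝ)) |
        (0 : V d) ∈ convexHull ℝ (Set.range fun i => vf (x i) p)} := by
    rintro p y ⟨hy, hyK⟩
    exact ⟨(Finset.mem_filter.1 hy).1, hyK.2⟩
  obtain ⟨η, hη, hη1⟩ := Run7.h160.PACH.t_ETA d (Fin (d + 1) → V d × ℝ) T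
    (K R) ⌈1 / (D : ℝ) * (N : ℝ)⌉₊
    (fun x hx => ⟨K_compact R x, (Finset.mem_filter.1 hx).2⟩)
    (fun p => by
      rw [Nat.lt_ceil, ← hNprod]
      refine lt_of_le_of_lt ?_ (hcon p)
      exact_mod_cast Set.ncard_le_ncard (hsubT p)
        ((Finset.finite_toSet _).subset (Set.sep_subset _ _)))
  set h : ℝ := η / ((d : ℝ) + 1) with hh
  have hd1 : (0 : ℝ) < (d : ℝ) + 1 := by positivity
  have hh0 : 0 < h := div_pos hη hd1
  have hhη : h * ((d : ℝ) + 1) = η := by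
    rw [hh]
    field_simp
  let pt : (Fin d → ℤ) → EuclideanSpace ℝ (Fin d) := fun v => WithLp.toLp 2 fun i => h * (v i : ℝ)
  obtain ⟨x, hx1, hx2⟩ := Run7.h929.PACH.t_FLAG t_AVG d (V d × ℝ) C
    (fun v => {y | y ∈ T ∧ Metric.infDist (pt v) (K R y) ≤ η}) hC
    (fun v => by
      have h1 := hη1 (pt v)
      rw [Nat.lt_ceil] at h1
      have he : {y ∈ (Fintype.piFinset C : Set (Fin (d + 1) → V d × ℝ)) |
          y ∈ {y | y ∈ T ∧ Metric.infDist (pt v) (K R y) ≤ η}} =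
          {a ∈ (T : Set (Fin (d + 1) → V d × ℝ)) | Metric.infDist (pt v) (K R a) ≤ η} := by
        ext y
        constructor
        · rintro ⟨_, h3, h4⟩
          exact ⟨h3, h4⟩
        · rintro ⟨h3, h4⟩
          exact ⟨(Finset.mem_filter.1 h3).1, h3, h4⟩
      rw [he]
      have h2 : (D : ℝ) * (({a ∈ (T : Set (Fin (d + 1) → V d × ℝ)) |
          Metric.infDist (pt v) (K R a) ≤ η}).ncard : ℝ) < (N : ℝ) := by
        have h3 := mul_lt_mul_of_pos_left h1 hD1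
        have h4 : (D : ℝ) * (1 / (D : ℝ) * (N : ℝ)) = N := by field_simp
        rw [h4] at h3
        exact h3
      exact_mod_cast h2)
  have hrk : ∀ z : Fin d → ℤ, rk z < d + 1 := by
    intro z
    have : rk z ≤ Fintype.card (Fin d) := by
      unfold rk
      exact Finset.card_le_univ _
    rw [Fintype.card_fin] at this
    omega
  obtain ⟨p, hpR, w, hw, hw1, hw2⟩ := field_zero (Finset.univ.biUnion C) R hR x (fun z => by
    rw [Finset.mem_biUnion]
    exact ⟨⟨rk z, hrk z⟩, Finset.mem_univ _, hx1 z _ rfl⟩) h⁻¹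
  have hpK : p ∈ K R (fun j => x (w j)) := ⟨hpR, hw2⟩
  refine hx2 w hw ⟨?_, ?_⟩
  · rw [hT, Finset.mem_filter, Fintype.mem_piFinset]
    exact ⟨fun j => hx1 _ j (hw.1 j), ⟨p, hpK⟩⟩
  refine (Metric.infDist_le_dist_of_mem hpK).trans ?_
  rw [EuclideanSpace.dist_eq, Real.sqrt_le_iff]
  refine ⟨hη.le, ?_⟩
  have hco : ∀ i : Fin d, dist ((pt (w 0)) i) (p i) ^ 2 ≤ h ^ 2 := by
    intro i
    have h1 := hw1 i
    have h2 : (pt (w 0)) i - p i = h * ((w 0 i : ℝ) - h⁻¹ * p i) := by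
      have h3 : (pt (w 0)) i = h * (w 0 i : ℝ) := rfl
      rw [h3, mul_sub, ← mul_assoc, mul_inv_cancel₀ hh0.ne', one_mul]
    rw [Real.dist_eq, h2, abs_mul, abs_of_pos hh0]
    have h4 : h * |(w 0 i : ℝ) - h⁻¹ * p i| ≤ h := by
      have := mul_le_mul_of_nonneg_left h1 hh0.le
      linarith
    exact pow_le_pow_left₀ (by positivity) h4 2
  calc ∑ i, dist ((pt (w 0)) i) (p i) ^ 2 ≤ ∑ _i : Fin d, h ^ 2 :=
        Finset.sum_le_sum fun i _ => hco i
    _ = (d : ℝ) * h ^ 2 := by rw [Finset.sum_const, Finset.card_univ, Fintype.card_fin, nsmul_eq_mul]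
    _ ≤ η ^ 2 := by
      rw [← hhη]
      have h5 : (0 : ℝ) ≤ (d : ℝ) := by positivity
      nlinarith [mul_nonneg h5 (sq_nonneg h), mul_nonneg (mul_nonneg h5 h5) (sq_nonneg h), sq_nonneg h]

end Run7.h940.PACH.DU
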