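import Pool.Agent.Run7.h940.PACH.DU3

set_option autoImplicit false

namespace Run7.h940.PACH.DU
open Finset Module Filter Topology
open scoped RealInnerProductSpace

theorem red : S_RED := by
  have hsep : S_SEP := Run7.h819.PACH.t_SEP (Run7.h923.PACH.t_PAT Run7.h482.PACH.halve)
  have hhom : S_HOM := t_HOM Run7.h286.PACH.t_REG hsep t_REP
  exact R.t_RED Run7.h629.PACH.t_MIN
    (Run7.h629.PACH.t_LEV Run7.h286.PACH.t_CLS (Run7.h898.PACH.t_SUB hhom))

/-- Positive scaling of the vectors does not change whether `0` is in the convex hull. -/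
theorem scale_hull {W ι : Type} [AddCommGroup W] [Module ℝ W] [Fintype ι] (v : ι → W) (t : ι → ℝ)
    (ht : ∀ i, 0 < t i) (h : (0 : W) ∈ convexHull ℝ (Set.range v)) :
    (0 : W) ∈ convexHull ℝ (Set.range fun i => t i • v i) := by
  obtain ⟨l, hl0, hl1, hl⟩ := (mem_hull _ _).1 h
  have hs : 0 < ∑ i, l i / t i := by
    refine Finset.sum_pos' (fun i _ => div_nonneg (hl0 i) (ht i).le) ?_
    by_contra hcon
    push Not at hcon
    have : ∀ i, l i = 0 := by
      intro i
      have h1 := hcon i (mem_univ i)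
      have h2 : 0 ≤ l i / t i := div_nonneg (hl0 i) (ht i).le
      have h3 : l i / t i = 0 := le_antisymm h1 h2
      rcases div_eq_zero_iff.1 h3 with h4 | h4
      · exact h4
      · exact absurd h4 (ht i).ne'
    simp [this] at hl1
  refine (mem_hull _ _).2 ⟨fun i => (l i / t i) / ∑ j, l j / t j,
    fun i => div_nonneg (div_nonneg (hl0 i) (ht i).le) hs.le, ?_, ?_⟩
  · rw [← Finset.sum_div, div_self hs.ne']
  · have : ∀ i, ((l i / t i) / ∑ j, l j / t j) • (t i • v i) = (∑ j, l j / t j)⁻¹ • (l i • v i) := by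
      intro i
      rw [smul_smul, smul_smul]
      congr 1
      have := (ht i).ne'
      field_simp
    simp only [this, ← Finset.smul_sum, hl, smul_zero]

/-- Homogeneous selection for hyperplanes. -/
theorem homH (d : ℕ) : ∃ c : ℝ, 0 < c ∧ ∀ A : Fin (d + 1) → Finset (V d × ℝ),
    (∀ i, (A i).Nonempty) → ∃ (q : V d) (D : Fin (d + 1) → Finset (V d × ℝ)),
      (∀ i, D i ⊆ A i ∧ c * ((A i).card : ℝ) ≤ ((D i).card : ℝ)) ∧
      ∀ x : Fin (d + 1) → V d × ℝ, (∀ i, x i ∈ D i) →
        (0 : V d) ∈ convexHull ℝ (Set.range fun i => vf (x i) q) := by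
  classical
  obtain ⟨c0, hc0, hsel⟩ := selH d
  obtain ⟨c1, hc1, hred⟩ := red d (c0 / 2) (by positivity)
  set δ : ℝ := min (1 / 2) (c0 / (2 * (d + 1))) with hδ
  have hδ0 : 0 < δ := lt_min (by norm_num) (by positivity)
  have hδ1 : δ ≤ 1 / 2 := min_le_left _ _
  have hδ2 : (d + 1 : ℝ) * δ ≤ c0 / 2 := by
    have h1 : δ ≤ c0 / (2 * (d + 1)) := min_le_right _ _
    have h2 : (0 : ℝ) < d + 1 := by positivity
    calc (d + 1 : ℝ) * δ ≤ (d + 1) * (c0 / (2 * (d + 1))) := by gcongr
      _ = c0 / 2 := by field_simp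
  refine ⟨min δ (c1 / 2), lt_min hδ0 (by positivity), fun A hA => ?_⟩
  obtain ⟨q, hq⟩ := hsel A hA
  refine ⟨q, ?_⟩
  let Z : Fin (d + 1) → Finset (V d × ℝ) := fun i => (A i).filter fun h => vf h q = 0
  by_cases hZ : ∃ i, δ * ((A i).card : ℝ) ≤ ((Z i).card : ℝ)
  · obtain ⟨i, hi⟩ := hZ
    refine ⟨fun j => if j = i then Z i else A j, fun j => ?_, fun x hx => ?_⟩
    · by_cases hj : j = i
      · subst hj
        simp only [if_true]
        refine ⟨Finset.filter_subset _ _, le_trans ?_ hi⟩
        gcongr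
        exact min_le_left _ _
      · simp only [if_neg hj]
        refine ⟨subset_rfl, ?_⟩
        have h1 : min δ (c1 / 2) ≤ 1 := (min_le_left _ _).trans (hδ1.trans (by norm_num))
        calc min δ (c1 / 2) * ((A j).card : ℝ) ≤ 1 * ((A j).card : ℝ) := by gcongr
          _ = _ := one_mul _
    · have h1 := hx i
      simp only [if_true] at h1
      have h2 : vf (x i) q = 0 := (Finset.mem_filter.1 h1).2
      refine subset_convexHull ℝ _ ⟨i, h2⟩
  push Not at hZ
  let B : Fin (d + 1) → Finset (V d × ℝ) := fun i => (A i).filter fun h => ¬ vf h q = 0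
  have hcardZB : ∀ i, (Z i).card + (B i).card = (A i).card := fun i =>
    Finset.card_filter_add_card_filter_not _
  have hBhalf : ∀ i, (1 / 2 : ℝ) * ((A i).card : ℝ) ≤ ((B i).card : ℝ) := by
    intro i
    have h1 : ((Z i).card : ℝ) + ((B i).card : ℝ) = ((A i).card : ℝ) := by exact_mod_cast hcardZB i
    have h2 := hZ i
    have h3 : δ * ((A i).card : ℝ) ≤ 1 / 2 * ((A i).card : ℝ) := by gcongr
    linarith
  have hAp : ∀ i, (0 : ℝ) < ((A i).card : ℝ) := fun i => by exact_mod_cast Finset.card_pos.2 (hA i)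
  have hBne : ∀ i, (B i).Nonempty := by
    intro i
    rw [← Finset.card_pos]
    have h1 := hBhalf i
    have h2 := hAp i
    have : (0 : ℝ) < ((B i).card : ℝ) := by linarith
    exact_mod_cast this
  -- counting
  have hBcount : c0 / 2 * ∏ i, ((A i).card : ℝ) ≤
      (({x ∈ (Fintype.piFinset B : Set (Fin (d + 1) → V d × ℝ)) |
        (0 : V d) ∈ convexHull ℝ (Set.range fun i => vf (x i) q)}).ncard : ℝ) := by
    have hsub : {x ∈ (Fintype.piFinset A : Set (Fin (d + 1) → V d × ℝ)) |
        (0 : V d) ∈ convexHull ℝ (Set.range fun i => vf (x i) q)} ⊆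
        {x ∈ (Fintype.piFinset B : Set (Fin (d + 1) → V d × ℝ)) |
        (0 : V d) ∈ convexHull ℝ (Set.range fun i => vf (x i) q)} ∪
        ((univ.biUnion fun i => Fintype.piFinset (Function.update A i (Z i)) :
          Finset (Fin (d + 1) → V d × ℝ)) : Set (Fin (d + 1) → V d × ℝ)) := by
      rintro x ⟨hx, hx0⟩
      have hxA := Fintype.mem_piFinset.1 (Finset.mem_coe.1 hx)
      by_cases hxB : ∀ i, x i ∈ B i
      · left
        exact ⟨Finset.mem_coe.2 (Fintype.mem_piFinset.2 hxB), hx0⟩
      · right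
        push Not at hxB
        obtain ⟨i, hi⟩ := hxB
        have hxi : x i ∈ Z i := by
          simp only [B, Finset.mem_filter, not_and, not_not] at hi
          exact Finset.mem_filter.2 ⟨hxA i, hi (hxA i)⟩
        rw [Finset.mem_coe, Finset.mem_biUnion]
        refine ⟨i, mem_univ _, Fintype.mem_piFinset.2 fun j => ?_⟩
        by_cases hj : j = i
        · subst hj; simpa using hxi
        · rw [Function.update_of_ne hj]; exact hxA j
    have h1 := Set.ncard_le_ncard hsub (((Finset.finite_toSet _).subset (Set.sep_subset _ _)).union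
      (Finset.finite_toSet _))
    have h2 := h1.trans (Set.ncard_union_le _ _)
    rw [Set.ncard_coe_finset] at h2
    have h3 : (((univ.biUnion fun i => Fintype.piFinset (Function.update A i (Z i)) :
          Finset (Fin (d + 1) → V d × ℝ))).card : ℝ) ≤ c0 / 2 * ∏ i, ((A i).card : ℝ) := by
      have h4 : ∀ i, ((Fintype.piFinset (Function.update A i (Z i))).card : ℝ) ≤
          δ * ∏ j, ((A j).card : ℝ) := by
        intro i
        rw [Fintype.card_piFinset]
        push_cast
        rw [← Finset.mul_prod_erase univ (fun j => ((A j).card : ℝ)) (mem_univ i),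
          ← Finset.mul_prod_erase univ (fun j => (((Function.update A i (Z i)) j).card : ℝ))
            (mem_univ i)]
        have h5 : ∏ j ∈ univ.erase i, (((Function.update A i (Z i)) j).card : ℝ) =
            ∏ j ∈ univ.erase i, ((A j).card : ℝ) := by
          refine Finset.prod_congr rfl fun j hj => ?_
          rw [Function.update_of_ne (Finset.ne_of_mem_erase hj)]
        rw [h5, Function.update_self, ← mul_assoc]
        exact mul_le_mul_of_nonneg_right (hZ i).le (Finset.prod_nonneg fun _ _ => Nat.cast_nonneg _)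
      calc _ ≤ ((∑ i, (Fintype.piFinset (Function.update A i (Z i))).card : ℕ) : ℝ) := by
            exact_mod_cast Finset.card_biUnion_le
        _ = ∑ i, ((Fintype.piFinset (Function.update A i (Z i))).card : ℝ) := by push_cast; rfl
        _ ≤ ∑ _i : Fin (d + 1), δ * ∏ j, ((A j).card : ℝ) := Finset.sum_le_sum fun i _ => h4 i
        _ = ((d + 1 : ℝ) * δ) * ∏ j, ((A j).card : ℝ) := by
            rw [Finset.sum_const, Finset.card_univ, Fintype.card_fin, nsmul_eq_mul]
            push_cast; ring
        _ ≤ _ := by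
            refine mul_le_mul_of_nonneg_right hδ2 (Finset.prod_nonneg fun _ _ => Nat.cast_nonneg _)
    have h6 : (({x ∈ (Fintype.piFinset A : Set (Fin (d + 1) → V d × ℝ)) |
        (0 : V d) ∈ convexHull ℝ (Set.range fun i => vf (x i) q)}).ncard : ℝ) ≤
        (({x ∈ (Fintype.piFinset B : Set (Fin (d + 1) → V d × ℝ)) |
        (0 : V d) ∈ convexHull ℝ (Set.range fun i => vf (x i) q)}).ncard : ℝ) +
        (((univ.biUnion fun i => Fintype.piFinset (Function.update A i (Z i)) :
          Finset (Fin (d + 1) → V d × ℝ))).card : ℝ) := by exact_mod_cast h2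
    linarith
  -- the scaled vectors
  let e : V d × ℝ → ℕ := fun h =>
    if hh : h ∈ univ.biUnion B then ((univ.biUnion B).equivFin ⟨h, hh⟩ : ℕ) else 0
  have he : ∀ i, Set.InjOn e (B i) := by
    intro i h1 hh1 h2 hh2 heq
    have m1 : h1 ∈ univ.biUnion B := Finset.mem_biUnion.2 ⟨i, mem_univ _, hh1⟩
    have m2 : h2 ∈ univ.biUnion B := Finset.mem_biUnion.2 ⟨i, mem_univ _, hh2⟩
    simp only [e, dif_pos m1, dif_pos m2] at heq
    have := (univ.biUnion B).equivFin.injective (Fin.ext heq)
    exact congrArg Subtype.val this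
  let t : V d × ℝ → ℝ := fun h => (1 + e h) / ‖vf h q‖
  let g : V d × ℝ → V d := fun h => t h • vf h q
  have hvpos : ∀ i, ∀ h ∈ B i, 0 < ‖vf h q‖ := fun i h hh => norm_pos_iff.2 (Finset.mem_filter.1 hh).2
  have htpos : ∀ i, ∀ h ∈ B i, 0 < t h := fun i h hh => div_pos (by positivity) (hvpos i h hh)
  have hgn : ∀ i, ∀ h ∈ B i, ‖g h‖ = 1 + e h := by
    intro i h hh
    simp only [g, t, norm_smul]
    rw [Real.norm_of_nonneg (by positivity), div_mul_cancel₀ _ (hvpos i h hh).ne']
  have hginj : ∀ i, Set.InjOn g (B i) := by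
    intro i h1 hh1 h2 hh2 heq
    refine he i hh1 hh2 ?_
    have h3 := hgn i h1 hh1
    rw [heq, hgn i h2 hh2] at h3
    have h4 : (e h2 : ℝ) = e h1 := by linarith
    exact_mod_cast h4.symm
  have hcardim : ∀ i, ((B i).image g).card = (B i).card := fun i =>
    Finset.card_image_of_injOn (hginj i)
  obtain ⟨D', hD', hD0⟩ := hred (fun i => (B i).image g) (fun i => (hBne i).image _) (by
    simp only [hcardim]
    have h1 : c0 / 2 * ∏ i, ((B i).card : ℝ) ≤ c0 / 2 * ∏ i, ((A i).card : ℝ) := by
      refine mul_le_mul_of_nonneg_left ?_ (by positivity)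
      refine Finset.prod_le_prod (fun _ _ => Nat.cast_nonneg _) fun i _ => ?_
      exact_mod_cast Finset.card_le_card (Finset.filter_subset _ _)
    refine h1.trans (hBcount.trans (Nat.cast_le.2 ?_))
    refine Set.ncard_le_ncard_of_injOn (fun x i => g (x i)) ?_ ?_ ?_
    · rintro x ⟨hx, hx0⟩
      have hxB := Fintype.mem_piFinset.1 (Finset.mem_coe.1 hx)
      refine ⟨?_, scale_hull _ _ (fun i => htpos i _ (hxB i)) hx0⟩
      rw [Finset.mem_coe, Fintype.mem_piFinset]
      exact fun i => Finset.mem_image_of_mem _ (hxB i)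
    · rintro x ⟨hx, _⟩ y ⟨hy, _⟩ hxy
      have hxB := Fintype.mem_piFinset.1 (Finset.mem_coe.1 hx)
      have hyB := Fintype.mem_piFinset.1 (Finset.mem_coe.1 hy)
      funext i
      exact hginj i (hxB i) (hyB i) (congrFun hxy i)
    · exact (Finset.finite_toSet _).subset (Set.sep_subset _ _))
  refine ⟨fun i => (B i).filter fun h => g h ∈ D' i, fun i => ⟨?_, ?_⟩, fun x hx => ?_⟩
  · exact (Finset.filter_subset _ _).trans (Finset.filter_subset _ _)
  · have h1 : ((B i).filter fun h => g h ∈ D' i).card = (D' i).card := by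
      have h2 : ((B i).filter fun h => g h ∈ D' i).image g = D' i := by
        ext v
        constructor
        · intro hv
          obtain ⟨h, hh, rfl⟩ := Finset.mem_image.1 hv
          exact (Finset.mem_filter.1 hh).2
        · intro hv
          obtain ⟨h, hh, rfl⟩ := Finset.mem_image.1 ((hD' i).1 hv)
          exact Finset.mem_image_of_mem _ (Finset.mem_filter.2 ⟨hh, hv⟩)
      have h3 := Finset.card_image_of_injOn (s := (B i).filter fun h => g h ∈ D' i)
        ((hginj i).mono (Finset.coe_subset.2 (Finset.filter_subset _ _)))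
      rw [h2] at h3
      exact h3.symm
    rw [h1]
    refine le_trans ?_ (hD' i).2
    rw [hcardim]
    calc min δ (c1 / 2) * ((A i).card : ℝ) ≤ c1 / 2 * ((A i).card : ℝ) := by
          gcongr; exact min_le_right _ _
      _ = c1 * (1 / 2 * ((A i).card : ℝ)) := by ring
      _ ≤ c1 * ((B i).card : ℝ) := by gcongr; exact hBhalf i
  · have hxB : ∀ i, x i ∈ B i := fun i => (Finset.mem_filter.1 (hx i)).1
    have h1 := hD0 (fun i => g (x i)) (fun i => (Finset.mem_filter.1 (hx i)).2)
    have h2 := scale_hull (fun i => g (x i)) (fun i => (t (x i))⁻¹)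
      (fun i => inv_pos.2 (htpos i _ (hxB i))) h1
    have h3 : (fun i => (t (x i))⁻¹ • g (x i)) = fun i => vf (x i) q := by
      funext i
      simp only [g, smul_smul]
      rw [inv_mul_cancel₀ (htpos i _ (hxB i)).ne', one_smul]
    rw [h3] at h2
    exact h2

end Run7.h940.PACH.DU
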