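import Pool.Agent.Run7.h940.PACH.Iface

set_option autoImplicit false

namespace Run7.h940.PACH
open Finset Module

theorem not_degen {V : Type} [AddCommGroup V] [Module ℝ V] [FiniteDimensional ℝ V] {κ : Type}
    (E : κ → Finset V) (x : κ → V) (hx : ∀ i, x i ∈ E i) (hli : LinearIndependent ℝ x) :
    ¬ Degen E := by
  rintro ⟨J, U, hU, hJ⟩
  have h1 : LinearIndependent ℝ (fun j : {j // j ∈ J} => x j) :=
    hli.comp _ Subtype.val_injective
  let z : {j // j ∈ J} → U := fun j => ⟨x j, hJ j j.2 _ (hx j)⟩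
  have h2 : LinearIndependent ℝ z := by
    refine LinearIndependent.of_comp U.subtype ?_
    exact h1
  have := h2.fintype_card_le_finrank
  rw [Fintype.card_coe] at this
  omega

theorem t_HOM : S_REG → S_SEP → S_REP → S_HOM := by
  intro hREG hSEP hREP n α hα
  classical
  obtain ⟨c0, hc0, hc1, hsep⟩ := hSEP n
  obtain ⟨c, hc, hreg⟩ := hREG (n + 1) α (c0 ^ (n + 1)) hα (by positivity)
  refine ⟨c * c0 ^ (n + 1), by positivity, ?_⟩
  intro V _ _ _ ι _ _ hV hι C G hC hG hα' hgood
  obtain ⟨D, hD, hDE⟩ := hreg ι V hι C G hC hG hα'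
  have key : ∀ S : Finset ι, ∃ E : ι → Finset V,
      (∀ i, E i ⊆ D i ∧ c0 ^ S.card * ((D i).card : ℝ) ≤ ((E i).card : ℝ)) ∧
      ∀ i ∈ S, ∀ y : ι → V, (∀ j, y j ∈ convexHull ℝ (E j : Set V)) →
        LinearIndependent ℝ (fun j : {j : ι // j ≠ i} => y j) := by
    intro S
    induction S using Finset.induction_on with
    | empty => exact ⟨D, fun i => ⟨subset_rfl, by simp⟩, fun i hi => by simp at hi⟩
    | insert a S ha ih =>
      obtain ⟨E, hE, hind⟩ := ih
      have hcardS : (insert a S).card ≤ n + 1 := by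
        rw [← hι]; exact Finset.card_le_univ _
      have hsub : Fintype.card {j : ι // j ≠ a} ≤ n := by
        rw [Fintype.card_subtype_compl, hι]; simp
      obtain ⟨E', hE', halt⟩ := hsep V {j : ι // j ≠ a} hV hsub (fun j => E j)
      let E'' : ι → Finset V := fun j => if h : j ≠ a then E' ⟨j, h⟩ else E j
      have hsubE : ∀ j, E'' j ⊆ E j := by
        intro j
        by_cases h : j ≠ a
        · simp only [E'', dif_pos h]; exact (hE' ⟨j, h⟩).1
        · simp only [E'', dif_neg h]; exact subset_rfl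
      have hsz : ∀ j, c0 ^ (insert a S).card * ((D j).card : ℝ) ≤ ((E'' j).card : ℝ) := by
        intro j
        have h0 := (hE j).2
        rw [Finset.card_insert_of_notMem ha, pow_succ]
        have hnn : (0 : ℝ) ≤ ((E j).card : ℝ) := Nat.cast_nonneg _
        have h1 : c0 ^ S.card * c0 * ((D j).card : ℝ) ≤ c0 * ((E j).card : ℝ) := by
          calc c0 ^ S.card * c0 * ((D j).card : ℝ) = c0 * (c0 ^ S.card * ((D j).card : ℝ)) := by ring
            _ ≤ c0 * ((E j).card : ℝ) := by gcongr
        refine h1.trans ?_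
        by_cases h : j ≠ a
        · simp only [E'', dif_pos h]; exact (hE' ⟨j, h⟩).2
        · simp only [E'', dif_neg h]
          calc c0 * ((E j).card : ℝ) ≤ 1 * ((E j).card : ℝ) := by gcongr
            _ = _ := one_mul _
      have hγ : ∀ j, c0 ^ (n + 1) * ((D j).card : ℝ) ≤ ((E'' j).card : ℝ) := by
        intro j
        refine le_trans ?_ (hsz j)
        have : c0 ^ (n + 1) ≤ c0 ^ (insert a S).card := pow_le_pow_of_le_one hc0.le hc1 hcardS
        gcongr
      obtain ⟨x, hxG, hx⟩ := hDE E'' (fun i => (hsubE i).trans (hE i).1) hγ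
      have hnd : ¬ Degen E' := by
        refine not_degen E' (fun j => x j) (fun j => ?_) ((hgood x hxG).2 a)
        have := hx j
        simp only [E'', dif_pos j.2] at this
        exact this
      have hli := halt.resolve_right hnd
      refine ⟨E'', fun i => ⟨(hsubE i).trans (hE i).1, hsz i⟩, ?_⟩
      intro i hi y hy
      rcases Finset.mem_insert.1 hi with rfl | hi
      · refine hli (fun j => y j) fun j => ?_
        have := hy j
        simp only [E'', dif_pos j.2] at this
        exact this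
      · exact hind i hi y fun j => convexHull_mono (Finset.coe_subset.2 (hsubE j)) (hy j)
  obtain ⟨E, hE, hind⟩ := key univ
  have hcu : (univ : Finset ι).card = n + 1 := by rw [Finset.card_univ, hι]
  rw [hcu] at hE
  obtain ⟨x, hxG, hx⟩ := hDE E (fun i => (hE i).1) (fun i => (hE i).2)
  refine ⟨E, fun i => ⟨(hE i).1.trans (hD i).1, ?_⟩, fun y hy => ?_⟩
  · refine le_trans ?_ (hE i).2
    calc c * c0 ^ (n + 1) * ((C i).card : ℝ) = c0 ^ (n + 1) * (c * ((C i).card : ℝ)) := by ring
      _ ≤ _ := by gcongr; exact (hD i).2.2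
  · refine hREP V ι (by rw [hι, hV]) E (fun i => hind i (mem_univ _)) ⟨x, hx, (hgood x hxG).1⟩ y hy

end Run7.h940.PACH
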