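import Pool.Agent.Run7.h940.PACH.Iface

set_option autoImplicit false

namespace Run7.h940.PACH
open Finset Module

theorem hull_sub {V ι : Type} [AddCommGroup V] [Module ℝ V] (x : ι → V) (p : V) :
    (0 : V) ∈ convexHull ℝ (Set.range fun i => x i - p) ↔ p ∈ convexHull ℝ (Set.range x) := by
  have h : (Set.range fun i => x i - p) = (fun v => -p + v) '' Set.range x := by
    rw [← Set.range_comp]
    congr 1
    funext i
    simp [sub_eq_neg_add]
  have h2 : convexHull ℝ ((fun v => -p + v) '' Set.range x) =
      (fun v => -p + v) '' convexHull ℝ (Set.range x) := by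
    have := convexHull_vadd (𝕜 := ℝ) (-p) (Set.range x)
    simpa [← Set.image_vadd] using this
  rw [h, h2]
  constructor
  · rintro ⟨v, hv, hv2⟩
    have : v = p := by
      have h3 : -p + v = 0 := hv2
      exact (neg_add_eq_zero.1 h3).symm
    rwa [← this]
  · intro hp
    exact ⟨p, hp, by simp⟩

theorem t_MAIN : S_SEL → S_RED → S_MAIN := by
  intro hsel hred d
  classical
  obtain ⟨c, hc, hsel⟩ := hsel d
  obtain ⟨c', hc', hred⟩ := hred d c hc
  refine ⟨c', hc', fun C hC => ?_⟩
  obtain ⟨p, hp⟩ := hsel C hC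
  let C' : Fin (d + 1) → Finset (EuclideanSpace ℝ (Fin d)) := fun i => (C i).image fun v => v - p
  have hinj : Function.Injective fun v : EuclideanSpace ℝ (Fin d) => v - p :=
    fun a b h => sub_left_injective h
  have hcard : ∀ i, (C' i).card = (C i).card := fun i => Finset.card_image_of_injective _ hinj
  obtain ⟨D, hD, hD0⟩ := hred C' (fun i => (hC i).image _) (by
    simp only [hcard]
    refine hp.trans (Nat.cast_le.2 ?_)
    refine Set.ncard_le_ncard_of_injOn (fun x i => x i - p) ?_ ?_ ?_
    · rintro x ⟨hx, hxp⟩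
      refine ⟨?_, (hull_sub x p).2 hxp⟩
      simp only [Finset.mem_coe, Fintype.mem_piFinset] at hx ⊢
      exact fun i => Finset.mem_image_of_mem _ (hx i)
    · intro x _ y _ h
      funext i
      exact hinj (congrFun h i)
    · exact (Finset.finite_toSet _).subset (Set.sep_subset _ _))
  refine ⟨p, fun i => (D i).image fun v => v + p, fun i => ⟨?_, ?_⟩, fun x hx => ?_⟩
  · intro v hv
    obtain ⟨u, hu, rfl⟩ := Finset.mem_image.1 hv
    obtain ⟨t, ht, rfl⟩ := Finset.mem_image.1 ((hD i).1 hu)
    simpa using ht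
  · rw [Finset.card_image_of_injective _ (add_left_injective p), ← hcard i]
    exact (hD i).2
  · rw [← hull_sub]
    refine hD0 _ fun i => ?_
    obtain ⟨u, hu, hux⟩ := Finset.mem_image.1 (hx i)
    rw [← hux]
    simpa using hu

end Run7.h940.PACH
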