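import Mathlib
import Pool.Agent.Run7.h940.PACH.Iface

set_option autoImplicit false

namespace Run7.h940.PACH.R

open Finset Module Run7.h940.PACH

/-- Pigeonhole for a map into a finite type. -/
theorem pigeon {A B : Type} [DecidableEq B] [Fintype B] (s : Finset A) (f : A → B) (hB : Nonempty B) :
    ∃ b : B, (s.card : ℝ) ≤ (Fintype.card B : ℝ) * ((s.filter fun a => f a = b).card : ℝ) := by
  by_contra hcon
  push Not at hcon
  have h1 : (s.card : ℝ) = ∑ b : B, ((s.filter fun a => f a = b).card : ℝ) := by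
    have := Finset.card_eq_sum_card_fiberwise (f := f) (s := s) (t := univ) (fun _ _ => by simp)
    rw [this]
    push_cast
    rfl
  have hcard : (0 : ℝ) < (Fintype.card B : ℝ) := by exact_mod_cast Fintype.card_pos
  have h2 : (Fintype.card B : ℝ) * (s.card : ℝ) < (Fintype.card B : ℝ) * (s.card : ℝ) := by
    calc (Fintype.card B : ℝ) * (s.card : ℝ)
        = ∑ b : B, (Fintype.card B : ℝ) * ((s.filter fun a => f a = b).card : ℝ) := by
          rw [h1, Finset.mul_sum]
      _ < ∑ _b : B, (s.card : ℝ) :=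
          Finset.sum_lt_sum_of_nonempty Finset.univ_nonempty fun b _ => hcon b
      _ = (Fintype.card B : ℝ) * (s.card : ℝ) := by
          rw [Finset.sum_const, nsmul_eq_mul, Finset.card_univ]
  exact lt_irrefl _ h2

/-- Density of the restrictions. -/
theorem restrict_density {ι A : Type} [Fintype ι] [DecidableEq ι] [DecidableEq A]
    (C : ι → Finset A) (hC : ∀ i, (C i).Nonempty) (F : Finset (ι → A))
    (hF : F ⊆ Fintype.piFinset C) (I : Finset ι) (α : ℝ)
    (hα : α * ∏ i, ((C i).card : ℝ) ≤ F.card) :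
    α * ∏ i : {i : ι // i ∈ I}, ((C i).card : ℝ) ≤
      ((F.image fun x => fun i : {i : ι // i ∈ I} => x i).card : ℝ) := by
  classical
  set G := F.image fun x => fun i : {i : ι // i ∈ I} => x i with hG
  have hle : F.card ≤ G.card * ∏ i : {i : ι // i ∉ I}, (C i).card := by
    rw [← Fintype.card_piFinset (fun i : {i : ι // i ∉ I} => C i), ← Finset.card_product]
    refine Finset.card_le_card_of_injOn
      (fun x => ((fun i : {i : ι // i ∈ I} => x i), (fun i : {i : ι // i ∉ I} => x i))) ?_ ?_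
    · intro x hx
      have hx' := Fintype.mem_piFinset.1 (hF hx)
      simp only [Finset.coe_product, Set.mem_prod, Finset.mem_coe]
      refine ⟨Finset.mem_image_of_mem _ hx, ?_⟩
      rw [Fintype.mem_piFinset]
      exact fun i => hx' i
    · intro x _ y _ hxy
      simp only [Prod.mk.injEq] at hxy
      funext i
      by_cases hi : i ∈ I
      · exact congrFun hxy.1 ⟨i, hi⟩
      · exact congrFun hxy.2 ⟨i, hi⟩
  have hprod : ∏ i, ((C i).card : ℝ) = (∏ i : {i : ι // i ∈ I}, ((C i).card : ℝ)) *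
      ∏ i : {i : ι // i ∉ I}, ((C i).card : ℝ) := by
    have h1 : ∏ i : {i : ι // i ∈ I}, ((C i).card : ℝ) = ∏ i ∈ I, ((C i).card : ℝ) :=
      Finset.prod_coe_sort I (fun i => ((C i).card : ℝ))
    have h2 : ∏ i : {i : ι // i ∉ I}, ((C i).card : ℝ) = ∏ i ∈ Iᶜ, ((C i).card : ℝ) := by
      rw [Finset.prod_subtype Iᶜ (p := fun i => i ∉ I) (fun i => by simp)]
    rw [h1, h2, Finset.prod_mul_prod_compl]
  have hpos : (0 : ℝ) < ∏ i : {i : ι // i ∉ I}, ((C i).card : ℝ) :=
    Finset.prod_pos fun i _ => by exact_mod_cast Finset.card_pos.2 (hC i)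
  have h2 : (F.card : ℝ) ≤ (G.card : ℝ) * ∏ i : {i : ι // i ∉ I}, ((C i).card : ℝ) := by
    exact_mod_cast hle
  have h3 : (α * ∏ i : {i : ι // i ∈ I}, ((C i).card : ℝ)) *
      (∏ i : {i : ι // i ∉ I}, ((C i).card : ℝ)) ≤
      (G.card : ℝ) * ∏ i : {i : ι // i ∉ I}, ((C i).card : ℝ) := by
    refine le_trans (le_of_eq ?_) (hα.trans h2)
    rw [hprod, mul_assoc]
  exact le_of_mul_le_mul_right h3 hpos

theorem t_RED : S_MIN → S_LEV → S_RED := by
  intro hMIN hLEV d c hc
  classical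
  have hα : 0 < c / 2 ^ (d + 1) := by positivity
  have hL : ∀ k : ℕ, ∃ c₁ : ℝ, 0 < c₁ ∧ c₁ ≤ 1 ∧ 
      ∀ (V : Type) [AddCommGroup V] [Module ℝ V] [FiniteDimensional ℝ V] (ι : Type) [Fintype ι]
      [DecidableEq ι], Fintype.card ι = k →
      ∀ (C : ι → Finset V) (G : Finset (ι → V)), (∀ i, (C i).Nonempty) →
        G ⊆ Fintype.piFinset C → (c / 2 ^ (d + 1)) * ∏ i, ((C i).card : ℝ) ≤ G.card →
        (∀ x ∈ G, Good x) →
        ∃ D : ι → Finset V, (∀ i, D i ⊆ C i ∧ c₁ * ((C i).card : ℝ) ≤ ((D i).card : ℝ)) ∧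
          ∀ x : ι → V, (∀ i, x i ∈ D i) → (0 : V) ∈ convexHull ℝ (Set.range x) := by
    intro k
    obtain ⟨c₁, hc₁, h⟩ := hLEV k (c / 2 ^ (d + 1)) hα
    refine ⟨min c₁ 1, lt_min hc₁ one_pos, min_le_right _ _, ?_⟩
    intro V _ _ _ ι _ _ hk C G h1 h2 h3 h4
    obtain ⟨D, hD, hD2⟩ := h V ι hk C G h1 h2 h3 h4
    refine ⟨D, fun i => ⟨(hD i).1, le_trans ?_ (hD i).2⟩, hD2⟩
    exact mul_le_mul_of_nonneg_right (min_le_left _ _) (Nat.cast_nonneg _)
  choose cL hcL0 hcL1 hcL using hL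
  -- the constant
  obtain ⟨c', hc'0, hc'⟩ : ∃ c' : ℝ, 0 < c' ∧ c' ≤ 1 ∧ ∀ k ∈ Finset.range (d + 2), c' ≤ cL k := by
    obtain ⟨k0, hk0, hmin⟩ := Finset.exists_min_image (Finset.range (d + 2)) cL ⟨0, by simp⟩
    exact ⟨cL k0, hcL0 k0, hcL1 k0, hmin⟩
  refine ⟨c', hc'0, ?_⟩
  intro C hC hdens
  set G₀ : Finset (Fin (d + 1) → EuclideanSpace ℝ (Fin d)) :=
    (Fintype.piFinset C).filter fun x => (0 : EuclideanSpace ℝ (Fin d)) ∈ convexHull ℝ (Set.range x) with hG₀
  have hG₀card : c * ∏ i, ((C i).card : ℝ) ≤ (G₀.card : ℝ) := by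
    refine hdens.trans (le_of_eq ?_)
    rw [← Set.ncard_coe_finset]
    congr 2
    ext x
    simp [hG₀]
  -- supports
  have hsupp : ∀ x : Fin (d + 1) → EuclideanSpace ℝ (Fin d), ∃ I : Finset (Fin (d + 1)),
      (0 : EuclideanSpace ℝ (Fin d)) ∈ convexHull ℝ (Set.range x) →
        I.Nonempty ∧ Good (fun i : {i : Fin (d + 1) // i ∈ I} => x i) := by
    intro x
    by_cases h : (0 : EuclideanSpace ℝ (Fin d)) ∈ convexHull ℝ (Set.range x)
    · obtain ⟨I, hI⟩ := hMIN (EuclideanSpace ℝ (Fin d)) (Fin (d + 1)) x h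
      exact ⟨I, fun _ => hI⟩
    · exact ⟨∅, fun h' => absurd h' h⟩
  choose supp hsupp using hsupp
  obtain ⟨I, hI⟩ := pigeon G₀ supp ⟨∅⟩
  set F := G₀.filter fun x => supp x = I with hF
  have hFsub : F ⊆ Fintype.piFinset C := (Finset.filter_subset _ _).trans (Finset.filter_subset _ _)
  have hFcard : (c / 2 ^ (d + 1)) * ∏ i, ((C i).card : ℝ) ≤ (F.card : ℝ) := by
    rw [Fintype.card_finset, Fintype.card_fin] at hI
    have h1 : c * ∏ i, ((C i).card : ℝ) ≤ (2 : ℝ) ^ (d + 1) * (F.card : ℝ) := by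
      refine hG₀card.trans (hI.trans (le_of_eq ?_))
      push_cast
      rfl
    rw [div_mul_eq_mul_div, div_le_iff₀ (by positivity)]
    linarith
  have hdensI := restrict_density C hC F hFsub I _ hFcard
  set G := F.image fun x => fun i : {i : Fin (d + 1) // i ∈ I} => x i with hG
  obtain ⟨D, hD, hD2⟩ := hcL (Fintype.card {i : Fin (d + 1) // i ∈ I}) (EuclideanSpace ℝ (Fin d))
    {i : Fin (d + 1) // i ∈ I} rfl (fun i => C i) G (fun i => hC i) (by
      intro y hy
      obtain ⟨x, hx, rfl⟩ := Finset.mem_image.1 hy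
      rw [Fintype.mem_piFinset]
      exact fun i => Fintype.mem_piFinset.1 (hFsub hx) i) hdensI (by
      intro y hy
      obtain ⟨x, hx, rfl⟩ := Finset.mem_image.1 hy
      rw [hF, Finset.mem_filter, hG₀, Finset.mem_filter] at hx
      have := (hsupp x hx.1.2).2
      rw [hx.2] at this
      exact this)
  refine ⟨fun i => if h : i ∈ I then D ⟨i, h⟩ else C i, ?_, ?_⟩
  · intro i
    by_cases h : i ∈ I
    · simp only [dif_pos h]
      refine ⟨(hD ⟨i, h⟩).1, le_trans ?_ (hD ⟨i, h⟩).2⟩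
      refine mul_le_mul_of_nonneg_right (hc'.2 _ ?_) (Nat.cast_nonneg _)
      rw [Finset.mem_range]
      have : Fintype.card {i : Fin (d + 1) // i ∈ I} ≤ Fintype.card (Fin (d + 1)) :=
        Fintype.card_subtype_le _
      rw [Fintype.card_fin] at this
      omega
    · simp only [dif_neg h]
      refine ⟨Finset.Subset.refl _, ?_⟩
      have := mul_le_mul_of_nonneg_right hc'.1 (Nat.cast_nonneg (C i).card : (0 : ℝ) ≤ _)
      linarith
  · intro x hx
    have h0 := hD2 (fun i => x i) (by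
      intro i
      have := hx i
      dsimp only at this
      rw [dif_pos i.2] at this
      exact this)
    refine convexHull_mono ?_ h0
    rintro _ ⟨i, rfl⟩
    exact ⟨i, rfl⟩

end Run7.h940.PACH.R
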