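import Pool.Agent.Run7.h940.PACH.Iface

set_option autoImplicit false

namespace Run7.h940.PACH
open Finset Module

theorem mem_hull {V ι : Type} [AddCommGroup V] [Module ℝ V] [Fintype ι] (y : ι → V) (v : V) :
    v ∈ convexHull ℝ (Set.range y) ↔
      ∃ w : ι → ℝ, (∀ i, 0 ≤ w i) ∧ ∑ i, w i = 1 ∧ ∑ i, w i • y i = v := by
  classical
  constructor
  · intro h
    let S : Set V := {v | ∃ w : ι → ℝ, (∀ i, 0 ≤ w i) ∧ ∑ i, w i = 1 ∧ ∑ i, w i • y i = v}
    have hS : Convex ℝ S := by
      rintro u ⟨w, hw0, hw1, hwu⟩ u' ⟨w', hw0', hw1', hwu'⟩ a b ha hb hab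
      refine ⟨fun i => a * w i + b * w' i, fun i => ?_, ?_, ?_⟩
      · have := hw0 i; have := hw0' i; positivity
      · rw [Finset.sum_add_distrib, ← Finset.mul_sum, ← Finset.mul_sum, hw1, hw1', mul_one, mul_one,
          hab]
      · simp only [add_smul, mul_smul, Finset.sum_add_distrib, ← Finset.smul_sum, hwu, hwu']
    have hsub : Set.range y ⊆ S := by
      rintro _ ⟨i, rfl⟩
      refine ⟨fun j => if j = i then 1 else 0, fun j => ?_, ?_, ?_⟩
      · dsimp only; split_ifs <;> norm_num
      · simp
      · simp
    exact convexHull_min hsub hS h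
  · rintro ⟨w, hw0, hw1, rfl⟩
    exact (convex_convexHull ℝ _).sum_mem (fun i _ => hw0 i) hw1
      (fun i _ => subset_convexHull ℝ _ (Set.mem_range_self i))

theorem dep_zero {V ι : Type} [AddCommGroup V] [Module ℝ V] [Fintype ι] (y : ι → V) (l : ι)
    (h : LinearIndependent ℝ (fun j : {j : ι // j ≠ l} => y j)) (a : ι → ℝ) (hl : a l = 0)
    (hs : ∑ j, a j • y j = 0) : ∀ j, a j = 0 := by
  classical
  intro j
  by_cases hj : j = l
  · rw [hj, hl]
  · have h1 := (Fintype.linearIndependent_iff.1 h) (fun j => a j) ?_ ⟨j, hj⟩
    · exact h1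
    · have e : ∑ j : {j : ι // j ≠ l}, a j • y j = ∑ j ∈ univ.filter (fun j => j ≠ l), a j • y j := by
        rw [← Finset.sum_subtype_eq_sum_filter, Finset.subtype_univ]
      rw [e, Finset.sum_filter]
      refine Eq.trans (Finset.sum_congr rfl fun k _ => ?_) hs
      by_cases hk : k = l
      · simp [hk, hl]
      · simp [hk]

theorem rep_step {V : Type} [AddCommGroup V] [Module ℝ V] [FiniteDimensional ℝ V] {ι : Type}
    [Fintype ι] [DecidableEq ι] (hcard : Fintype.card ι = finrank ℝ V + 1) (K : ι → Set V)
    (hK : ∀ i, Convex ℝ (K i))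
    (hind : ∀ i, ∀ y : ι → V, (∀ j, y j ∈ K j) →
      LinearIndependent ℝ (fun j : {j : ι // j ≠ i} => y j))
    (y : ι → V) (hy : ∀ j, y j ∈ K j) (h0 : (0 : V) ∈ convexHull ℝ (Set.range y)) (i : ι) (z : V)
    (hz : z ∈ K i) : (0 : V) ∈ convexHull ℝ (Set.range (Function.update y i z)) := by
  obtain ⟨w, hw0, hw1, hw⟩ := (mem_hull y 0).1 h0
  have hpos : ∀ l, 0 < w l := by
    intro l
    rcases (hw0 l).lt_or_eq with h | h
    · exact h
    · exfalso
      have := dep_zero y l (hind l y hy) w h.symm hw
      simp [this] at hw1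
  have hspan : Submodule.span ℝ (Set.range (fun j : {j : ι // j ≠ i} => y j)) = ⊤ := by
    refine (hind i y hy).span_eq_top_of_card_eq_finrank' ?_
    rw [Fintype.card_subtype_compl, hcard]
    simp
  have hzs : z ∈ Submodule.span ℝ (Set.range (fun j : {j : ι // j ≠ i} => y j)) := by
    rw [hspan]; trivial
  obtain ⟨b, hb⟩ := (Submodule.mem_span_range_iff_exists_fun ℝ).1 hzs
  let c : ι → ℝ := fun j => if h : j ≠ i then b ⟨j, h⟩ else 0
  have hci : c i = 0 := by simp [c]
  have hc : ∑ j, c j • y j = z := by
    rw [← hb]
    have e : ∑ j : {j : ι // j ≠ i}, b j • y j = ∑ j : {j : ι // j ≠ i}, c j • y j :=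
      Finset.sum_congr rfl fun j _ => by simp [c, j.2]
    have e2 : ∑ j : {j : ι // j ≠ i}, c j • y j = ∑ j ∈ univ.filter (fun j => j ≠ i), c j • y j := by
      rw [← Finset.sum_subtype_eq_sum_filter, Finset.subtype_univ]
    rw [e, e2, Finset.sum_filter]
    refine Finset.sum_congr rfl fun k _ => ?_
    by_cases hk : k = i
    · simp [hk, hci]
    · simp [hk]
  by_cases hall : ∀ j, c j ≤ 0
  · -- weights
    let v : ι → ℝ := fun j => if j = i then 1 else - c j
    have hv0 : ∀ j, 0 ≤ v j := by
      intro j
      by_cases hj : j = i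
      · simp [v, hj]
      · simp only [v, if_neg hj]; linarith [hall j]
    have hvs : 0 < ∑ j, v j := by
      refine Finset.sum_pos' (fun j _ => hv0 j) ⟨i, mem_univ _, by simp [v]⟩
    have hvz : ∑ j, v j • Function.update y i z j = 0 := by
      have : ∀ j, v j • Function.update y i z j = (if j = i then z else 0) - c j • y j := by
        intro j
        by_cases hj : j = i
        · subst hj; simp [v, hci]
        · simp [v, hj, Function.update_of_ne hj]
      simp only [this, Finset.sum_sub_distrib, hc]
      simp
    refine (mem_hull _ _).2 ⟨fun j => v j / ∑ j, v j, fun j => div_nonneg (hv0 j) hvs.le, ?_, ?_⟩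
    · rw [← Finset.sum_div, div_self hvs.ne']
    · have : ∀ j, (v j / ∑ j, v j) • Function.update y i z j =
          (∑ j, v j)⁻¹ • (v j • Function.update y i z j) := by
        intro j; rw [smul_smul, div_eq_inv_mul]
      simp only [this, ← Finset.smul_sum, hvz, smul_zero]
  · exfalso
    push Not at hall
    obtain ⟨l, hl⟩ := hall
    have hli : l ≠ i := by
      rintro rfl; rw [hci] at hl; exact lt_irrefl _ hl
    set s := c l * w i + w l with hs
    have hspos : 0 < s := by
      have := hpos i; have := hpos l; positivity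
    set u : V := ((c l * w i) / s) • y i + (w l / s) • z with hu
    have huK : u ∈ K i := by
      refine hK i (hy i) hz ?_ ?_ ?_
      · have := hpos i; positivity
      · have := hpos l; positivity
      · rw [← add_div, ← hs, div_self hspos.ne']
    have hy'' : ∀ j, Function.update y i u j ∈ K j := by
      intro j
      by_cases hj : j = i
      · subst hj; simpa using huK
      · rw [Function.update_of_ne hj]; exact hy j
    let a : ι → ℝ := fun j => if j = i then s else c l * w j - w l * c j
    have hal : a l = 0 := by simp [a, hli]; ring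
    have hsum : ∑ j, a j • Function.update y i u j = 0 := by
      have h1 : ∀ j, a j • Function.update y i u j =
          (if j = i then w l • z else 0) + (c l * w j - w l * c j) • y j := by
        intro j
        by_cases hj : j = i
        · subst hj
          simp only [a, if_true, Function.update_self, hu, smul_add, smul_smul, hci, mul_zero,
            sub_zero]
          rw [mul_div_cancel₀ _ hspos.ne', mul_div_cancel₀ _ hspos.ne', add_comm]
        · simp [a, hj, Function.update_of_ne hj]
      simp only [h1, Finset.sum_add_distrib]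
      have h2 : ∑ j, (c l * w j - w l * c j) • y j = c l • ∑ j, w j • y j - w l • ∑ j, c j • y j := by
        rw [Finset.smul_sum, Finset.smul_sum, ← Finset.sum_sub_distrib]
        refine Finset.sum_congr rfl fun j _ => ?_
        rw [sub_smul, mul_smul, mul_smul]
      rw [h2, hw, hc]
      simp
    have := dep_zero (Function.update y i u) l (hind l _ hy'') a hal hsum i
    simp only [a, if_true] at this
    exact hspos.ne' this

theorem t_REP : S_REP := by
  intro V _ _ _ ι _ hcard E hind ⟨x, hx, h0⟩ y hy
  classical
  have key : ∀ S : Finset ι, (0 : V) ∈ convexHull ℝ (Set.range (S.piecewise y x)) := by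
    intro S
    induction S using Finset.induction_on with
    | empty => simpa using h0
    | insert a S ha ih =>
      rw [Finset.piecewise_insert]
      refine rep_step hcard (fun j => convexHull ℝ (E j : Set V)) (fun j => convex_convexHull ℝ _)
        hind _ (fun j => ?_) ih a (y a) (subset_convexHull ℝ _ (hy a))
      by_cases hj : j ∈ S
      · rw [Finset.piecewise_eq_of_mem _ _ _ hj]; exact subset_convexHull ℝ _ (hy j)
      · rw [Finset.piecewise_eq_of_notMem _ _ _ hj]; exact subset_convexHull ℝ _ (hx j)
  have := key univ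
  rwa [Finset.piecewise_univ] at this

end Run7.h940.PACH
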