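import Pool.Agent.Run7.h160.PACH.SEL
import Pool.Agent.Run7.h160.PACH.ETA
import Pool.Agent.Run7.h940.PACH.RED
import Pool.Agent.Run7.h629.PACH.LEV
import Pool.Agent.Run7.h629.PACH.MIN
import Pool.Agent.Run7.h819.PACH.SEP
import Pool.Agent.Run7.h929.PACH.FLAG
import Pool.Agent.Run7.h286.PACH.CLS
import Pool.Agent.Run7.h286.PACH.REG
import Pool.Agent.Run7.h898.PACH.SUB
import Pool.Agent.Run7.h898.PACH.GM1
import Pool.Agent.Run7.h482.PACH.HALVE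
import Pool.Agent.Run7.h923.PACH.PAT
import Pool.Agent.Run7.h940.PACH.AVG
import Pool.Agent.Run7.h940.PACH.REP
import Pool.Agent.Run7.h940.PACH.HOM
import Pool.Agent.Run7.h940.PACH.MAIN
import Pool.Agent.Run7.h463.PACH.GM2
import Pool.Agent.R87.HS

set_option autoImplicit false

namespace Run7.h940.PACH

theorem main : S_MAIN := by
  have hsel : S_SEL := Run7.h160.PACH.t_SEL (Run7.h929.PACH.t_FLAG t_AVG)
    (Run7.h463.PACH.t_GMAP Run7.h898.PACH.t_GM1) Run7.h160.PACH.t_ETA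
  have hsep : S_SEP := Run7.h819.PACH.t_SEP (Run7.h923.PACH.t_PAT Run7.h482.PACH.halve)
  have hhom : S_HOM := t_HOM Run7.h286.PACH.t_REG hsep t_REP
  have hlev : S_LEV := Run7.h629.PACH.t_LEV Run7.h286.PACH.t_CLS (Run7.h898.PACH.t_SUB hhom)
  exact t_MAIN hsel (Run7.h940.PACH.R.t_RED Run7.h629.PACH.t_MIN hlev)

/-- arbitrary weights, from the case of equal sizes -/
theorem weights (h : S_MAIN) : ∀ d : ℕ, 1 ≤ d → ∃ c : ℝ, 0 < c ∧
    (∀ C : Fin (d + 1) → Finset (EuclideanSpace ℝ (Fin d)), (∀ i, (C i).Nonempty) →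
      ∃ (p : EuclideanSpace ℝ (Fin d)) (D : Fin (d + 1) → Finset (EuclideanSpace ℝ (Fin d))),
        (∀ i, D i ⊆ C i ∧ c * ((C i).card : ℝ) ≤ ((D i).card : ℝ)) ∧
        ∀ x : Fin (d + 1) → EuclideanSpace ℝ (Fin d), (∀ i, x i ∈ D i) →
          p ∈ convexHull ℝ (Set.range x)) ∧
    ∀ (C : Fin (d + 1) → Finset (EuclideanSpace ℝ (Fin d)))
      (w : Fin (d + 1) → EuclideanSpace ℝ (Fin d) → ℝ), (∀ i, ∀ x ∈ C i, 0 ≤ w i x) →
      (∀ i, 0 < ∑ x ∈ C i, w i x) →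
      ∃ (p : EuclideanSpace ℝ (Fin d)) (D : Fin (d + 1) → Finset (EuclideanSpace ℝ (Fin d))),
        (∀ i, D i ⊆ C i ∧ c * ∑ x ∈ C i, w i x ≤ ∑ x ∈ D i, w i x) ∧
        ∀ x : Fin (d + 1) → EuclideanSpace ℝ (Fin d), (∀ i, x i ∈ D i) →
          p ∈ convexHull ℝ (Set.range x) := by
  intro d hd
  obtain ⟨c, hc, hC⟩ := h d
  refine ⟨c, hc, hC, fun C w hw hw0 => ?_⟩
  refine Pool.Agent.R87.HS.w_sel hd hc ?_ C w hw hw0
  intro n C' hn hC' _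
  obtain ⟨p, D, hD, hp⟩ := hC C' (fun i => Finset.card_pos.1 (by rw [hC' i]; exact hn))
  exact ⟨p, D, fun i => ⟨(hD i).1, by rw [← hC' i]; exact (hD i).2⟩, hp⟩

end Run7.h940.PACH
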